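import Mathlib

/-!
Definitions: lines, spreads, packings and cyclic packings of the projective space of a vector
space over a finite field.
-/

set_option autoImplicit false

namespace Pool.Agent.TH353.CP

open scoped LinearAlgebra.Projectivization

variable (K V : Type*) [Field K] [AddCommGroup V] [Module K V]

/-- `ℓ` is (the point set of) a line of the projective space of `V`: the set of all points contained
in some two-dimensional subspace `W`. -/
def IsLine (ℓ : Set (ℙ K V)) : Prop :=
  ∃ W : Submodule K V, Module.finrank K W = 2 ∧ ℓ = {p | p.submodule ≤ W}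

/-- A spread of `PG(3,q)`: a set of `q² + 1` lines such that every point lies on exactly one of
them (`q` is the number of elements of `K`). -/
def IsSpread (S : Set (Set (ℙ K V))) : Prop :=
  S.ncard = Nat.card K ^ 2 + 1 ∧ (∀ ℓ ∈ S, IsLine K V ℓ) ∧ ∀ p : ℙ K V, ∃! ℓ, ℓ ∈ S ∧ p ∈ ℓ

/-- A packing of `PG(3,q)`: a set of `q² + q + 1` pairwise disjoint spreads such that every line
lies in exactly one of them. -/
def IsPacking (P : Set (Set (Set (ℙ K V)))) : Prop :=
  P.ncard = Nat.card K ^ 2 + Nat.card K + 1 ∧ (∀ S ∈ P, IsSpread K V S) ∧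
    (∀ S ∈ P, ∀ S' ∈ P, S ≠ S' → Disjoint S S') ∧
    ∀ ℓ : Set (ℙ K V), IsLine K V ℓ → ∃! S, S ∈ P ∧ ℓ ∈ S

/-- A collineation: a permutation of the points that maps lines onto lines. -/
def IsCollineation (σ : Equiv.Perm (ℙ K V)) : Prop :=
  ∀ ℓ : Set (ℙ K V), IsLine K V ℓ → IsLine K V (σ '' ℓ)

/-- The image of a set of lines under a permutation of the points. -/
def moveSpread {K V : Type*} [Field K] [AddCommGroup V] [Module K V] (σ : Equiv.Perm (ℙ K V))
    (S : Set (Set (ℙ K V))) : Set (Set (ℙ K V)) := (fun ℓ => σ '' ℓ) '' S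

/-- A packing is cyclic if some collineation `σ` of order exactly `q² + q + 1` maps each of its
`q² + q + 1` spreads to a spread of the packing and permutes them in a single cycle. -/
def IsCyclicPacking (P : Set (Set (Set (ℙ K V)))) : Prop :=
  IsPacking K V P ∧ ∃ σ : Equiv.Perm (ℙ K V), IsCollineation K V σ ∧
    orderOf σ = Nat.card K ^ 2 + Nat.card K + 1 ∧ (∀ S ∈ P, moveSpread σ S ∈ P) ∧
    ∀ S ∈ P, ∀ S' ∈ P, ∃ n : ℕ, moveSpread (σ ^ n) S = S'

end Pool.Agent.TH353.CP
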