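import Mathlib

/-!
The algebra behind the cyclic packings of `PG(3,q)`, `q ≡ 2 mod 3`.
-/

set_option autoImplicit false

namespace Pool.Agent.TH353.CP

variable {L : Type*} [Field L] (φ : L →+* L)

/-- norm -/
def n3 (x : L) : L := x * φ x * φ (φ x)

/-- trace -/
def t3 (x : L) : L := x + φ x + φ (φ x)

variable {φ}

lemma one_add_ne (h3 : (3 : L) ≠ 0) {k c : L} (hk : φ k = k) (hφ : ∀ x, φ (φ (φ x)) = x) :
    1 + k * (φ (φ c) - c) ≠ 0 := by
  intro h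
  have h1 : 1 + k * (c - φ c) = 0 := by
    have := congrArg φ h
    rw [map_add, map_mul, map_sub, map_one, map_zero, hφ, hk] at this
    exact this
  have h2 : 1 + k * (φ c - φ (φ c)) = 0 := by
    have := congrArg φ h1
    rw [map_add, map_mul, map_sub, map_one, map_zero, hk] at this
    exact this
  apply h3
  linear_combination h + h1 + h2

theorem exists_u (hφ : ∀ x, φ (φ (φ x)) = x) (h3 : (3 : L) ≠ 0)
    (hc : ∀ n, φ n = n → ∃ k, φ k = k ∧ k ^ 3 = n) (c : L) :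
    ∃ u : L, n3 φ u = 1 ∧ φ (φ u / u + t3 φ u * c) = φ u / u + t3 φ u * c := by
  obtain ⟨d0, hd0⟩ : ∃ d0, d0 = φ c - φ (φ c) := ⟨_, rfl⟩
  obtain ⟨d1, hd1⟩ : ∃ d1, d1 = φ (φ c) - c := ⟨_, rfl⟩
  obtain ⟨d2, hd2⟩ : ∃ d2, d2 = c - φ c := ⟨_, rfl⟩
  have e0 : φ d0 = d1 := by rw [hd0, hd1, map_sub, hφ]
  have e1 : φ d1 = d2 := by rw [hd1, hd2, map_sub, hφ]
  have e2 : φ d2 = d0 := by rw [hd2, hd0, map_sub]
  have hs : d0 + d1 + d2 = 0 := by rw [hd0, hd1, hd2]; ring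
  obtain ⟨k, hk, hk3⟩ := hc (1 + d0 * d1 * d2) (by
    rw [map_add, map_mul, map_mul, map_one, e0, e1, e2]; ring)
  have hA1 : 1 + k * d1 ≠ 0 := by rw [hd1]; exact one_add_ne h3 hk hφ
  have hA2 : 1 + k * d2 ≠ 0 := by
    have := (map_ne_zero φ).2 hA1
    rwa [map_add, map_mul, map_one, hk, e1] at this
  have hA0 : 1 + k * d0 ≠ 0 := by
    have := (map_ne_zero φ).2 hA2
    rwa [map_add, map_mul, map_one, hk, e2] at this
  obtain ⟨u0, hu0⟩ : ∃ u0, u0 = (k + d0 * d1) / (1 + k * d1) := ⟨_, rfl⟩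
  obtain ⟨u1, hu1⟩ : ∃ u1, u1 = (k + d1 * d2) / (1 + k * d2) := ⟨_, rfl⟩
  obtain ⟨u2, hu2⟩ : ∃ u2, u2 = (k + d2 * d0) / (1 + k * d0) := ⟨_, rfl⟩
  have f0 : φ u0 = u1 := by
    rw [hu0, hu1, map_div₀, map_add, map_add, map_mul, map_mul, map_one, hk, e0, e1]
  have f1 : φ u1 = u2 := by
    rw [hu1, hu2, map_div₀, map_add, map_add, map_mul, map_mul, map_one, hk, e1, e2]
  have hN : u0 * u1 * u2 = 1 := by
    rw [hu0, hu1, hu2, div_mul_div_comm, div_mul_div_comm, div_eq_one_iff_eq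
      (mul_ne_zero (mul_ne_zero hA1 hA2) hA0)]
    have hd : d2 = -d0 - d1 := by linear_combination hs
    subst hd
    linear_combination (1 - d0 * d1 * (-d0 - d1)) * hk3
  have R1 : u0 * u1 + d1 = k * u1 := by
    rw [hu0, hu1]
    field_simp
    have hd : d2 = -d0 - d1 := by linear_combination hs
    subst hd
    linear_combination (-d1) * hk3
  have R2 : u1 * u2 + d2 = k * u2 := by
    have := congrArg φ R1
    rwa [map_add, map_mul, map_mul, f0, f1, e1, hk] at this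
  have f2 : φ u2 = u0 := by
    rw [hu2, hu0, map_div₀, map_add, map_add, map_mul, map_mul, map_one, hk, e2, e0]
  have R0 : u2 * u0 + d0 = k * u0 := by
    have := congrArg φ R2
    rwa [map_add, map_mul, map_mul, f1, f2, e2, hk] at this
  have hu0n : u0 ≠ 0 := by rintro h; rw [h] at hN; simp at hN
  have hu1n : u1 ≠ 0 := by rintro h; rw [h] at hN; simp at hN
  refine ⟨u0, ?_, ?_⟩
  · unfold n3; rw [f0, f1, hN]
  · unfold t3
    rw [map_add, map_div₀, map_mul, map_add, map_add, f0, f1, f2]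
    have hcc : φ c = c - d2 := by rw [hd2]; ring
    rw [hcc]
    have key : u1 ^ 2 - u0 * u2 + (u0 + u1 + u2) * d2 * (u0 * u1) = 0 := by
      linear_combination (u0 + u1 + u2) * (u0 * u1) * R2 +
        ((u0 + u1 + u2) * (k - u1)) * hN - R0 - R1 - R2 + hs
    field_simp
    linear_combination (-1 : L) * key

theorem u_formula (hφ : ∀ x, φ (φ (φ x)) = x) (h3 : (3 : L) ≠ 0)
    (hi : ∀ k k', φ k = k → φ k' = k' → k ^ 3 = k' ^ 3 → k = k') {c u : L}
    (hN : n3 φ u = 1) (hX : φ (φ u / u + t3 φ u * c) = φ u / u + t3 φ u * c) :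
    ∃ k, φ k = k ∧ k ^ 3 = 1 + (φ c - φ (φ c)) * (φ (φ c) - c) * (c - φ c) ∧
      u * (1 + k * (φ (φ c) - c)) = k + (φ c - φ (φ c)) * (φ (φ c) - c) := by
  obtain ⟨d0, hd0⟩ : ∃ d0, d0 = φ c - φ (φ c) := ⟨_, rfl⟩
  obtain ⟨d1, hd1⟩ : ∃ d1, d1 = φ (φ c) - c := ⟨_, rfl⟩
  obtain ⟨d2, hd2⟩ : ∃ d2, d2 = c - φ c := ⟨_, rfl⟩
  have e0 : φ d0 = d1 := by rw [hd0, hd1, map_sub, hφ]
  have e1 : φ d1 = d2 := by rw [hd1, hd2, map_sub, hφ]
  have e2 : φ d2 = d0 := by rw [hd2, hd0, map_sub]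
  have hs : d0 + d1 + d2 = 0 := by rw [hd0, hd1, hd2]; ring
  rw [← hd0, ← hd1, ← hd2]
  obtain ⟨u1, hu1⟩ : ∃ u1, u1 = φ u := ⟨_, rfl⟩
  obtain ⟨u2, hu2⟩ : ∃ u2, u2 = φ u1 := ⟨_, rfl⟩
  have f2 : φ u2 = u := by rw [hu2, hu1, hφ]
  unfold n3 at hN
  rw [← hu1, ← hu2] at hN
  unfold t3 at hX
  rw [← hu1, ← hu2] at hX
  have hun : u ≠ 0 := by rintro h; rw [h] at hN; simp at hN
  have hu1n : u1 ≠ 0 := by rintro h; rw [h] at hN; simp at hN
  have hu2n : u2 ≠ 0 := by rintro h; rw [h] at hN; simp at hN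
  obtain ⟨τ, hτ⟩ : ∃ τ, τ = u + u1 + u2 := ⟨_, rfl⟩
  rw [← hτ] at hX
  have hφτ : φ τ = τ := by rw [hτ, map_add, map_add, ← hu1, ← hu2, f2]; ring
  have hE : u1 ^ 2 - u * u2 + τ * d2 * (u * u1) = 0 := by
    rw [map_add, map_div₀, map_mul, ← hu1, ← hu2, hφτ] at hX
    have hcc : φ c = c - d2 := by rw [hd2]; ring
    rw [hcc] at hX
    field_simp at hX
    linear_combination (-1 : L) * hX
  have hτ0 : τ ≠ 0 := by
    intro h0
    rw [h0] at hX hE
    have hX' : φ (u1 / u) = u1 / u := by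
      rw [zero_mul, add_zero] at hX; exact hX
    have h1 : (u1 / u) ^ 3 = 1 ^ 3 := by
      have h2 : u2 / u1 = u1 / u := by
        rw [map_div₀, ← hu2, ← hu1] at hX'; exact hX'
      have h4 : u / u2 = u1 / u := by
        have := congrArg φ h2
        rw [map_div₀, f2, ← hu2, hX'] at this
        exact this
      calc (u1 / u) ^ 3 = (u1 / u) * (u1 / u) * (u1 / u) := by ring
        _ = (u1 / u) * (u2 / u1) * (u / u2) := by rw [h2, h4]
        _ = 1 := by field_simp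
        _ = 1 ^ 3 := by ring
    have h5 := hi _ _ hX' (map_one φ) h1
    rw [div_eq_one_iff_eq hun] at h5
    have h6 : u2 = u := by rw [hu2, h5, ← hu1, h5]
    rw [h0, h5, h6] at hτ
    have : (3 : L) * u = 0 := by linear_combination (-1 : L) * hτ
    rcases mul_eq_zero.1 this with h | h
    · exact h3 h
    · exact hun h
  obtain ⟨k, hk⟩ : ∃ k, k = (u * u1 + u1 * u2 + u2 * u) / τ := ⟨_, rfl⟩
  have hφk : φ k = k := by
    rw [hk, map_div₀, map_add, map_add, map_mul, map_mul, map_mul, hφτ, ← hu1, ← hu2, f2]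
    congr 1; ring
  have hkτ : k * τ = u * u1 + u1 * u2 + u2 * u := by rw [hk]; field_simp
  -- conjugates of `hE`
  have hE0 : u2 ^ 2 - u1 * u + τ * d0 * (u1 * u2) = 0 := by
    have := congrArg φ hE
    rwa [map_add, map_sub, map_mul, map_mul, map_mul, map_mul, map_pow, map_zero, ← hu1, ← hu2,
      f2, e2, hφτ] at this
  have hE1 : u ^ 2 - u2 * u1 + τ * d1 * (u2 * u) = 0 := by
    have := congrArg φ hE0
    rwa [map_add, map_sub, map_mul, map_mul, map_mul, map_mul, map_pow, map_zero, ← hu1, ← hu2,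
      f2, e0, hφτ] at this
  have R1 : d1 = u1 * (k - u) := by
    apply mul_left_cancel₀ hτ0
    linear_combination u1 * hE1 - (τ * d1) * hN - u1 * hkτ + (u1 * u) * hτ
  have R2 : d2 = u2 * (k - u1) := by
    have := congrArg φ R1
    rwa [map_mul, map_sub, e1, hφk, ← hu1, ← hu2] at this
  have R0 : d0 = u * (k - u2) := by
    have := congrArg φ R2
    rwa [map_mul, map_sub, e2, hφk, f2, ← hu2] at this
  refine ⟨k, hφk, ?_, ?_⟩
  · rw [R0, R1, R2]
    linear_combination (1 - (k - u) * (k - u1) * (k - u2)) * hN - k ^ 2 * hτ + k * hkτ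
  · rw [R0, R1]
    linear_combination (k - u) * hN

theorem u_unique (hφ : ∀ x, φ (φ (φ x)) = x) (h3 : (3 : L) ≠ 0)
    (hi : ∀ k k', φ k = k → φ k' = k' → k ^ 3 = k' ^ 3 → k = k') {c u v : L}
    (hN : n3 φ u = 1) (hX : φ (φ u / u + t3 φ u * c) = φ u / u + t3 φ u * c)
    (hN' : n3 φ v = 1) (hX' : φ (φ v / v + t3 φ v * c) = φ v / v + t3 φ v * c) : u = v := by
  obtain ⟨k, h1, h2, h4⟩ := u_formula hφ h3 hi hN hX
  obtain ⟨k', h1', h2', h4'⟩ := u_formula hφ h3 hi hN' hX'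
  have hkk : k = k' := hi _ _ h1 h1' (h2.trans h2'.symm)
  subst hkk
  exact mul_right_cancel₀ (one_add_ne h3 h1 hφ) (h4.trans h4'.symm)

end Pool.Agent.TH353.CP
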