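import Mathlib

/-!
Planar difference sets in cyclic groups: the multiplier theorem for a prime divisor of the order,
and the fact that a zero-sum planar difference set of order `3 ^ h` contains `0`.
-/

set_option autoImplicit false

namespace Pool.Agent.TH353.CP

open Finset

/-- A planar difference set of order `q` in `ZMod N`, `N = q² + q + 1`. -/
structure PDS (q N : ℕ) (D : Finset (ZMod N)) : Prop where
  card : D.card = q + 1
  hN : N = q ^ 2 + q + 1
  diff : ∀ g : ZMod N, g ≠ 0 → ((D ×ˢ D).filter (fun x => x.1 - x.2 = g)).card = 1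

section Alg

variable {N p : ℕ}

/-- the group algebra -/
abbrev Alg (N p : ℕ) := AddMonoidAlgebra (ZMod p) (ZMod N)

/-- basis elements -/
noncomputable def X (p : ℕ) {N : ℕ} (g : ZMod N) : Alg N p := AddMonoidAlgebra.single g 1

lemma X_mul (g h : ZMod N) : X p g * X p h = X p (g + h) := by
  unfold X
  rw [AddMonoidAlgebra.single_mul_single, one_mul]

lemma X_zero : X p (0 : ZMod N) = 1 := rfl

lemma X_pow (g : ZMod N) (n : ℕ) : X p g ^ n = X p ((n : ZMod N) * g) := by
  unfold X
  rw [AddMonoidAlgebra.single_pow, one_pow, nsmul_eq_mul]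

lemma X_coeff (g h : ZMod N) : (X p g).coeff h = if g = h then 1 else 0 := by
  unfold X
  rw [AddMonoidAlgebra.coeff_single]
  exact Finsupp.single_apply

/-- coefficient functional as an additive map -/
noncomputable def cf (h : ZMod N) : Alg N p →+ ZMod p :=
  (Finsupp.applyAddHom h).comp (AddMonoidAlgebra.coeffAddEquiv (R := ZMod p) (M := ZMod N)).toAddMonoidHom

lemma cf_X (g h : ZMod N) : cf h (X p g) = if g = h then 1 else 0 := X_coeff g h

instance [Fact p.Prime] : CharP (Alg N p) p := by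
  have : Nontrivial (Alg N p) := AddMonoidAlgebra.instNontrivial
  exact charP_of_injective_algebraMap (RingHom.injective (algebraMap (ZMod p) (Alg N p))) p

end Alg

section mult

variable {q N p : ℕ} [NeZero N] {D : Finset (ZMod N)}

/-- number of representations `c = p d - e` -/
def rep (p : ℕ) (D : Finset (ZMod N)) (c : ZMod N) : ℕ :=
  ((D ×ˢ D).filter (fun x => (p : ZMod N) * x.1 - x.2 = c)).card

lemma prod_eq (hD : PDS q N D) [Fact p.Prime] (hp : p ∣ q) :
    (∑ d ∈ D, X p d) * (∑ e ∈ D, X p (-e)) = ∑ g : ZMod N, X p g := by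
  have h1 : (∑ d ∈ D, X p d) * (∑ e ∈ D, X p (-e)) = ∑ x ∈ D ×ˢ D, X p (x.1 - x.2) := by
    rw [Finset.sum_mul_sum, ← Finset.sum_product']
    apply Finset.sum_congr rfl
    intro x _
    rw [X_mul, sub_eq_add_neg]
  rw [h1, ← Finset.sum_fiberwise_of_maps_to (t := Finset.univ) (g := fun x => x.1 - x.2)
    (fun _ _ => Finset.mem_univ _)]
  apply Finset.sum_congr rfl
  intro g _
  rw [Finset.sum_congr rfl (g := fun _ => X p g) (by
    intro x hx; rw [(Finset.mem_filter.1 hx).2]), Finset.sum_const]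
  by_cases hg : g = 0
  · subst hg
    have h2 : ((D ×ˢ D).filter (fun x => x.1 - x.2 = (0 : ZMod N))).card = q + 1 := by
      rw [← hD.card]
      rw [show (D ×ˢ D).filter (fun x => x.1 - x.2 = (0 : ZMod N)) = D.diag from by
        ext ⟨a, b⟩
        simp only [Finset.mem_filter, Finset.mem_product, Finset.mem_diag, sub_eq_zero]
        constructor
        · rintro ⟨⟨h1, _⟩, h3⟩; exact ⟨h1, h3⟩
        · rintro ⟨h1, h3⟩; exact ⟨⟨h1, h3 ▸ h1⟩, h3⟩]
      exact Finset.diag_card _
    rw [h2, nsmul_eq_mul]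
    obtain ⟨k, rfl⟩ := hp
    push_cast
    rw [CharP.cast_eq_zero, zero_mul, zero_add, one_mul]
  · rw [hD.diff g hg, one_smul]

lemma X_mul_all (g : ZMod N) : X p g * (∑ h : ZMod N, X p h) = ∑ h : ZMod N, X p h := by
  rw [Finset.mul_sum]
  simp_rw [X_mul]
  exact Fintype.sum_equiv (Equiv.addLeft g) _ _ (fun x => rfl)

lemma sum_mul_all (hD : PDS q N D) [Fact p.Prime] (hp : p ∣ q) :
    (∑ d ∈ D, X p d) * (∑ h : ZMod N, X p h) = ∑ h : ZMod N, X p h := by
  rw [Finset.sum_mul]
  simp_rw [X_mul_all]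
  rw [Finset.sum_const, hD.card, nsmul_eq_mul]
  obtain ⟨k, rfl⟩ := hp
  push_cast
  rw [CharP.cast_eq_zero, zero_mul, zero_add, one_mul]

lemma pow_mul_all (hD : PDS q N D) [Fact p.Prime] (hp : p ∣ q) (n : ℕ) :
    (∑ d ∈ D, X p d) ^ n * (∑ h : ZMod N, X p h) = ∑ h : ZMod N, X p h := by
  induction n with
  | zero => rw [pow_zero, one_mul]
  | succ n ih => rw [pow_succ, mul_assoc, sum_mul_all hD hp, ih]

lemma rep_mod (hD : PDS q N D) [Fact p.Prime] (hp : p ∣ q) (c : ZMod N) :
    ((rep p D c : ℕ) : ZMod p) = 1 := by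
  have h1 : (∑ d ∈ D, X p d) ^ p * (∑ e ∈ D, X p (-e)) = ∑ g : ZMod N, X p g := by
    have hpne : p ≠ 0 := (Fact.out : p.Prime).ne_zero
    rw [← pow_sub_one_mul hpne, mul_assoc, prod_eq hD hp, pow_mul_all hD hp]
  rw [sum_pow_char p] at h1
  simp_rw [X_pow] at h1
  have h2 : (∑ d ∈ D, X p ((p : ZMod N) * d)) * (∑ e ∈ D, X p (-e)) =
      ∑ x ∈ D ×ˢ D, X p ((p : ZMod N) * x.1 - x.2) := by
    rw [Finset.sum_mul_sum, ← Finset.sum_product']
    apply Finset.sum_congr rfl
    intro x _
    rw [X_mul, sub_eq_add_neg]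
  rw [h2] at h1
  have h3 := congrArg (cf c) h1
  rw [map_sum, map_sum] at h3
  simp_rw [cf_X] at h3
  rw [Finset.sum_ite_eq' Finset.univ c, if_pos (Finset.mem_univ _), Finset.sum_boole] at h3
  exact h3

lemma one_le_rep (hD : PDS q N D) (hpp : p.Prime) (hp : p ∣ q) (c : ZMod N) :
    1 ≤ rep p D c := by
  have : Fact p.Prime := ⟨hpp⟩
  have h := rep_mod hD hp c
  rcases Nat.eq_zero_or_pos (rep p D c) with h0 | h0
  · rw [h0] at h; simp at h
  · exact h0

lemma sum_rep (hD : PDS q N D) : ∑ c : ZMod N, rep p D c = (q + 1) ^ 2 := by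
  unfold rep
  have := Finset.card_eq_sum_card_fiberwise (s := D ×ˢ D) (t := Finset.univ)
    (f := fun x : ZMod N × ZMod N => (p : ZMod N) * x.1 - x.2) (fun _ _ => Finset.mem_coe.2 (Finset.mem_univ _))
  rw [← this, Finset.card_product, hD.card, sq]

omit [NeZero N] in
lemma coprime_aux (hN : N = q ^ 2 + q + 1) {r : ℕ} (hr : r ∣ q) : Nat.Coprime r N := by
  obtain ⟨k, rfl⟩ := hr
  rw [hN]
  have : (r * k) ^ 2 + r * k + 1 = 1 + r * (k * (r * k) + k) := by ring
  rw [this]
  simp

lemma sum_rep_sq (hD : PDS q N D) (hp : p ∣ q) :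
    ∑ c : ZMod N, rep p D c ^ 2 = (q + 1) ^ 2 + q * (q + 1) := by
  have hinj : ∀ x : ZMod N, (p : ZMod N) * x = 0 → x = 0 := by
    intro x hx
    have hu : IsUnit (p : ZMod N) := (ZMod.isUnit_iff_coprime p N).2 (coprime_aux hD.hN hp)
    exact (hu.mul_right_eq_zero).1 hx
  have h1 : ∀ c : ZMod N, rep p D c ^ 2 = ∑ x ∈ D ×ˢ D, ∑ y ∈ D ×ˢ D,
      if ((p : ZMod N) * x.1 - x.2 = c ∧ (p : ZMod N) * y.1 - y.2 = c) then 1 else 0 := by
    intro c
    unfold rep
    rw [sq, Finset.card_filter, Finset.sum_mul_sum]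
    apply Finset.sum_congr rfl; intro x _
    apply Finset.sum_congr rfl; intro y _
    by_cases h1 : (p : ZMod N) * x.1 - x.2 = c <;> by_cases h2 : (p : ZMod N) * y.1 - y.2 = c <;>
      simp [h1, h2]
  simp_rw [h1]
  rw [Finset.sum_comm]
  have h2 : ∀ x ∈ D ×ˢ D, (∑ c : ZMod N, ∑ y ∈ D ×ˢ D,
      if ((p : ZMod N) * x.1 - x.2 = c ∧ (p : ZMod N) * y.1 - y.2 = c) then 1 else 0) =
      ∑ y ∈ D ×ˢ D, if (x.2 - y.2 = (p : ZMod N) * (x.1 - y.1)) then 1 else 0 := by
    intro x _
    rw [Finset.sum_comm]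
    apply Finset.sum_congr rfl; intro y _
    by_cases h : x.2 - y.2 = (p : ZMod N) * (x.1 - y.1)
    · rw [if_pos h, Finset.sum_eq_single ((p : ZMod N) * x.1 - x.2)]
      · rw [if_pos]
        refine ⟨rfl, ?_⟩
        linear_combination h
      · intro b _ hb
        rw [if_neg]
        rintro ⟨h3, -⟩
        exact hb h3.symm
      · intro h3; exact absurd (Finset.mem_univ _) h3
    · rw [if_neg h]
      apply Finset.sum_eq_zero
      intro c _
      rw [if_neg]
      rintro ⟨h3, h4⟩
      apply h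
      linear_combination h4 - h3
  rw [Finset.sum_congr rfl h2]
  -- reorganise as a sum over the first coordinates
  have h3 : (∑ x ∈ D ×ˢ D, ∑ y ∈ D ×ˢ D,
      if (x.2 - y.2 = (p : ZMod N) * (x.1 - y.1)) then 1 else 0) =
      ∑ z ∈ D ×ˢ D, ((D ×ˢ D).filter (fun w => w.1 - w.2 = (p : ZMod N) * (z.1 - z.2))).card := by
    simp_rw [Finset.card_filter]
    rw [Finset.sum_product, Finset.sum_product]
    apply Finset.sum_congr rfl; intro a _
    rw [Finset.sum_congr rfl (fun b _ => Finset.sum_product _ _ _)]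
    rw [Finset.sum_comm]
    apply Finset.sum_congr rfl; intro c _
    rw [Finset.sum_product]
  rw [h3]
  have h4 : ∀ z ∈ D ×ˢ D, ((D ×ˢ D).filter (fun w => w.1 - w.2 = (p : ZMod N) * (z.1 - z.2))).card =
      1 + if z.1 = z.2 then q else 0 := by
    intro z hz
    by_cases h : z.1 = z.2
    · rw [if_pos h, h, sub_self, mul_zero]
      rw [show (D ×ˢ D).filter (fun x => x.1 - x.2 = (0 : ZMod N)) = D.diag from by
        ext ⟨a, b⟩
        simp only [Finset.mem_filter, Finset.mem_product, Finset.mem_diag, sub_eq_zero]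
        constructor
        · rintro ⟨⟨h1, _⟩, h3⟩; exact ⟨h1, h3⟩
        · rintro ⟨h1, h3⟩; exact ⟨⟨h1, h3 ▸ h1⟩, h3⟩]
      rw [Finset.diag_card, hD.card]; ring
    · rw [if_neg h, add_zero]
      apply hD.diff
      intro h5
      exact h (sub_eq_zero.1 (hinj _ h5))
  rw [Finset.sum_congr rfl h4, Finset.sum_add_distrib, Finset.sum_const, Finset.card_product,
    hD.card]
  rw [← Finset.sum_filter]
  rw [show (D ×ˢ D).filter (fun z => z.1 = z.2) = D.diag from by
        ext ⟨a, b⟩
        simp only [Finset.mem_filter, Finset.mem_product, Finset.mem_diag]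
        constructor
        · rintro ⟨⟨h1, _⟩, h3⟩; exact ⟨h1, h3⟩
        · rintro ⟨h1, h3⟩; exact ⟨⟨h1, h3 ▸ h1⟩, h3⟩]
  rw [Finset.sum_const, Finset.diag_card, hD.card, smul_eq_mul, smul_eq_mul]
  ring

/-- The multiplier theorem: a prime divisor of the order is a multiplier. -/
theorem multiplier (hD : PDS q N D) (hq : 0 < q) (hpp : p.Prime) (hp : p ∣ q) :
    ∃ c : ZMod N, ∀ d ∈ D, (p : ZMod N) * d - c ∈ D := by
  have hpos := one_le_rep hD hpp hp
  have hs1 := sum_rep (p := p) hD
  have hs2 := sum_rep_sq hD hp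
  set b : ZMod N → ℕ := fun c => rep p D c - 1 with hb
  have hab : ∀ c, rep p D c = b c + 1 := fun c => by have := hpos c; simp only [hb]; omega
  have hcard : (Finset.univ : Finset (ZMod N)).card = q ^ 2 + q + 1 := by
    rw [Finset.card_univ, ZMod.card, hD.hN]
  have e1 : ∑ c : ZMod N, b c = q := by
    have : ∑ c : ZMod N, rep p D c = ∑ c : ZMod N, b c + (q ^ 2 + q + 1) := by
      rw [← hcard, Finset.card_eq_sum_ones, ← Finset.sum_add_distrib]
      exact Finset.sum_congr rfl (fun c _ => hab c)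
    rw [hs1] at this
    nlinarith
  have e2 : ∑ c : ZMod N, b c ^ 2 = q ^ 2 := by
    have : ∑ c : ZMod N, rep p D c ^ 2 = ∑ c : ZMod N, b c ^ 2 + 2 * ∑ c : ZMod N, b c +
        (q ^ 2 + q + 1) := by
      rw [← hcard, Finset.card_eq_sum_ones, Finset.mul_sum, ← Finset.sum_add_distrib,
        ← Finset.sum_add_distrib]
      exact Finset.sum_congr rfl (fun c _ => by rw [hab c]; ring)
    rw [hs2, e1] at this
    nlinarith
  obtain ⟨c, hc⟩ : ∃ c, b c ≠ 0 := by
    by_contra hcon
    push Not at hcon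
    rw [Finset.sum_eq_zero (fun c _ => hcon c)] at e1
    omega
  have hbc : b c = q := by
    have h1 : b c ≤ q := by
      rw [← e1]; exact Finset.single_le_sum (fun _ _ => Nat.zero_le _) (Finset.mem_univ c)
    have h2 : ∑ x : ZMod N, b x ^ 2 ≤ b c ^ 2 + ∑ x ∈ Finset.univ.erase c, b x * (q - b c) := by
      rw [← Finset.add_sum_erase _ _ (Finset.mem_univ c)]
      gcongr with x hx
      have h3 : b x + b c ≤ q := by
        rw [← e1, ← Finset.add_sum_erase _ _ (Finset.mem_univ c)]
        have := Finset.single_le_sum (f := b) (fun _ _ => Nat.zero_le _) hx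
        omega
      have h4 : b x ≤ q - b c := by omega
      nlinarith
    have h5 : ∑ x ∈ Finset.univ.erase c, b x = q - b c := by
      have := Finset.add_sum_erase Finset.univ b (Finset.mem_univ c)
      rw [e1] at this; omega
    rw [← Finset.sum_mul, h5, e2] at h2
    obtain ⟨k, hk⟩ := Nat.exists_eq_add_of_le h1
    rw [hk] at h2
    simp only [add_tsub_cancel_left] at h2
    have hbpos : 0 < b c := Nat.pos_of_ne_zero hc
    have : k = 0 := by nlinarith
    omega
  have hrep : rep p D c = q + 1 := by rw [hab, hbc]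
  refine ⟨c, ?_⟩
  -- the first projection is injective on the fibre, hence onto `D`
  set S := (D ×ˢ D).filter (fun x => (p : ZMod N) * x.1 - x.2 = c) with hS
  have hinj : Set.InjOn (fun x : ZMod N × ZMod N => x.1) (S : Set (ZMod N × ZMod N)) := by
    rintro ⟨a, a'⟩ ha ⟨b, b'⟩ hb' hab'
    simp only at hab'
    subst hab'
    have h1 := (Finset.mem_filter.1 (Finset.mem_coe.1 ha)).2
    have h2 := (Finset.mem_filter.1 (Finset.mem_coe.1 hb')).2
    simp only at h1 h2
    rw [Prod.mk.injEq]
    refine ⟨rfl, ?_⟩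
    linear_combination h2 - h1
  have himg : S.image (fun x => x.1) = D := by
    apply Finset.eq_of_subset_of_card_le
    · intro x hx
      obtain ⟨y, hy, rfl⟩ := Finset.mem_image.1 hx
      exact (Finset.mem_product.1 (Finset.mem_filter.1 hy).1).1
    · rw [Finset.card_image_of_injOn hinj, hD.card]
      exact hrep.ge
  intro d hd
  rw [← himg] at hd
  obtain ⟨y, hy, rfl⟩ := Finset.mem_image.1 hd
  have h1 := (Finset.mem_filter.1 hy)
  have h2 : (p : ZMod N) * y.1 - c = y.2 := by linear_combination h1.2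
  rw [h2]
  exact (Finset.mem_product.1 h1.1).2

/-- If the order is a power of `3`, the point `- q * ∑ D` lies in `D`. -/
theorem three_mem (hD : PDS q N D) {h : ℕ} (hh : 0 < h) (hq : q = 3 ^ h) :
    -((q : ZMod N) * ∑ d ∈ D, d) ∈ D := by
  have hq0 : 0 < q := by rw [hq]; positivity
  have h3 : 3 ∣ q := by rw [hq]; exact dvd_pow_self 3 hh.ne'
  set t : ZMod N := (q : ZMod N) * ∑ d ∈ D, d with ht
  have hNz : ((q : ZMod N) ^ 2 + q + 1) = 0 := by
    have : ((q ^ 2 + q + 1 : ℕ) : ZMod N) = 0 := by rw [← hD.hN]; exact ZMod.natCast_self N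
    push_cast at this; exact this
  -- the translate
  set E : Finset (ZMod N) := D.image (fun d => d + t) with hE
  have hinjE : Function.Injective (fun d : ZMod N => d + t) := add_left_injective t
  have hEsum : ∑ e ∈ E, e = 0 := by
    rw [hE, Finset.sum_image (fun a _ b _ hab => hinjE hab), Finset.sum_add_distrib,
      Finset.sum_const, hD.card, nsmul_eq_mul, ht]
    push_cast
    linear_combination (∑ d ∈ D, d) * hNz
  have hEcard : E.card = q + 1 := by rw [hE, Finset.card_image_of_injective _ hinjE, hD.card]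
  obtain ⟨c, hc⟩ := multiplier hD hq0 Nat.prime_three h3
  -- multiplication by 3 maps `E` into a translate of `E`
  have h3E : ∀ e ∈ E, (3 : ZMod N) * e - (c + 2 * t) ∈ E := by
    intro e he
    obtain ⟨d, hd, rfl⟩ := Finset.mem_image.1 he
    have := hc d hd
    rw [hE, Finset.mem_image]
    refine ⟨_, this, ?_⟩
    push_cast
    ring
  have h3u : IsUnit ((3 : ℕ) : ZMod N) := (ZMod.isUnit_iff_coprime 3 N).2 (coprime_aux hD.hN h3)
  push_cast at h3u
  have hmapE : E.image (fun e => (3 : ZMod N) * e - (c + 2 * t)) = E := by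
    apply Finset.eq_of_subset_of_card_le
    · intro x hx
      obtain ⟨y, hy, rfl⟩ := Finset.mem_image.1 hx
      exact h3E y hy
    · have hi : Function.Injective (fun e => (3 : ZMod N) * e - (c + 2 * t)) := by
        intro a b hab
        have : (3 : ZMod N) * a = 3 * b := by linear_combination hab
        exact h3u.mul_left_cancel this
      rw [Finset.card_image_of_injective E hi]
  have hc0 : c + 2 * t = 0 := by
    have h5 : ∑ e ∈ E.image (fun e => (3 : ZMod N) * e - (c + 2 * t)), e = 0 := by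
      rw [hmapE, hEsum]
    rw [Finset.sum_image] at h5
    · rw [Finset.sum_sub_distrib, ← Finset.mul_sum, hEsum, Finset.sum_const, hEcard,
        nsmul_eq_mul] at h5
      push_cast at h5
      linear_combination (-(q : ZMod N) - 0) * (-h5) * (-1) * (-1) + (c + 2 * t) * hNz
    · intro a _ b _ hab
      have : (3 : ZMod N) * a = 3 * b := by linear_combination hab
      exact h3u.mul_left_cancel this
  have h3E' : ∀ e ∈ E, (3 : ZMod N) * e ∈ E := by
    intro e he
    have := h3E e he
    rwa [hc0, sub_zero] at this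
  have hpow : ∀ k : ℕ, ∀ e ∈ E, (3 : ZMod N) ^ k * e ∈ E := by
    intro k
    induction k with
    | zero => intro e he; rwa [pow_zero, one_mul]
    | succ k ih => intro e he; rw [pow_succ, mul_assoc]; exact ih _ (h3E' e he)
  have hqE : ∀ e ∈ E, (q : ZMod N) * e ∈ E := by
    intro e he
    have := hpow h e he
    rw [hq]; push_cast; exact this
  have hq3 : (q : ZMod N) ^ 3 = 1 := by linear_combination ((q : ZMod N) - 1) * hNz
  -- multiplication by `q` on `E` has order dividing three
  let f : Function.End E := fun e => ⟨(q : ZMod N) * e.1, hqE e.1 e.2⟩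
  have hf : f ^ 3 ^ 1 = 1 := by
    funext e
    apply Subtype.ext
    change (q : ZMod N) * ((q : ZMod N) * ((q : ZMod N) * e.1)) = e.1
    linear_combination e.1 * hq3
  have : Fact (Nat.Prime 3) := ⟨Nat.prime_three⟩
  have hmod := Equiv.Perm.card_fixedPoints_modEq hf
  rw [Fintype.card_coe, hEcard] at hmod
  have hne : Fintype.card f.fixedPoints ≠ 0 := by
    intro h0
    rw [h0] at hmod
    obtain ⟨k, hk⟩ := h3
    rw [hk] at hmod
    unfold Nat.ModEq at hmod
    omega
  obtain ⟨⟨⟨e, heE⟩, hfix⟩⟩ := Fintype.card_pos_iff.1 (Nat.pos_of_ne_zero hne)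
  have hfix' : (q : ZMod N) * e = e := congrArg Subtype.val hfix
  have he3 : (3 : ZMod N) * e = 0 := by
    linear_combination (e * hNz) - ((q : ZMod N) + 2) * hfix'
  have he0 : e = 0 := (h3u.mul_right_eq_zero).1 he3
  rw [he0, hE, Finset.mem_image] at heE
  obtain ⟨d, hd, hdt⟩ := heE
  have : d = -t := eq_neg_of_add_eq_zero_left hdt
  rwa [← this]

end mult

end Pool.Agent.TH353.CP
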