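import Mathlib
import Pool.Agent.TH353.CP.Mult

/-!
Abstract combinatorial part of the non-existence of cyclic packings of `PG(3,q)`:
if the order is a power of three, or is congruent to one modulo three, there is no spread one of
whose translates under a collineation of order `q² + q + 1` contains each line.
-/

set_option autoImplicit false
set_option linter.unusedSectionVars false

namespace Pool.Agent.TH353.CP

open Finset

/-- The combinatorial facts about `PG(3,q)` which are used. -/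
structure PG3 (Pt : Type*) [Fintype Pt] [DecidableEq Pt] (q : ℕ) where
  L : Finset (Finset Pt)
  H : Finset (Finset Pt)
  two_le : 2 ≤ q
  card_pt : Fintype.card Pt = q * (q ^ 2 + q + 1) + 1
  card_H : H.card = q * (q ^ 2 + q + 1) + 1
  card_line : ∀ l ∈ L, l.card = q + 1
  card_plane : ∀ h ∈ H, h.card = q ^ 2 + q + 1
  line_ex : ∀ x y : Pt, x ≠ y → ∃ l ∈ L, x ∈ l ∧ y ∈ l
  line_uniq : ∀ l ∈ L, ∀ m ∈ L, ∀ x y : Pt, x ≠ y → x ∈ l → y ∈ l → x ∈ m → y ∈ m → l = m
  plane_line : ∀ h ∈ H, ∀ l ∈ L, l ⊆ h ∨ (l ∩ h).card = 1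
  plane_inter : ∀ h ∈ H, ∀ h' ∈ H, h ≠ h' → h ∩ h' ∈ L
  coplanar : ∀ h ∈ H, ∀ l ∈ L, ∀ m ∈ L, l ⊆ h → m ⊆ h → ∃ x, x ∈ l ∧ x ∈ m
  span3 : ∀ x y z : Pt, ∃ h ∈ H, x ∈ h ∧ y ∈ h ∧ z ∈ h

variable {Pt : Type*} [Fintype Pt] [DecidableEq Pt] {q : ℕ}

/-- image of a set of points -/
def im (g : Equiv.Perm Pt) (l : Finset Pt) : Finset Pt := l.image g

lemma mem_im {g : Equiv.Perm Pt} {l : Finset Pt} {x : Pt} : x ∈ im g l ↔ ∃ y ∈ l, g y = x := by
  unfold im; exact Finset.mem_image

lemma apply_mem_im {g : Equiv.Perm Pt} {l : Finset Pt} {x : Pt} : g x ∈ im g l ↔ x ∈ l := by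
  rw [mem_im]
  constructor
  · rintro ⟨y, hy, h⟩
    rwa [← g.injective h]
  · intro h; exact ⟨x, h, rfl⟩

lemma im_mul (g h : Equiv.Perm Pt) (l : Finset Pt) : im (g * h) l = im g (im h l) := by
  unfold im; rw [Finset.image_image]; rfl

lemma im_one (l : Finset Pt) : im 1 l = l := by
  unfold im; rw [Equiv.Perm.coe_one, Finset.image_id]

lemma card_im (g : Equiv.Perm Pt) (l : Finset Pt) : (im g l).card = l.card :=
  Finset.card_image_of_injective _ g.injective

lemma im_inter (g : Equiv.Perm Pt) (l m : Finset Pt) : im g (l ∩ m) = im g l ∩ im g m :=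
  Finset.image_inter _ _ g.injective

/-- A collineation of order dividing `N = q² + q + 1` and a spread `S` such that every line has
exactly one translate in `S`. -/
structure Cyc (G : PG3 Pt q) (N : ℕ) (σ : Equiv.Perm Pt) (S : Finset (Finset Pt)) : Prop where
  hN : N = q ^ 2 + q + 1
  pow : σ ^ N = 1
  line : ∀ l ∈ G.L, im σ l ∈ G.L
  plane : ∀ h ∈ G.H, im σ h ∈ G.H
  sub : S ⊆ G.L
  cover : ∀ x : Pt, ∃! l, l ∈ S ∧ x ∈ l
  orb : ∀ l ∈ G.L, ∃! i : ZMod N, im (σ ^ i.val) l ∈ S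

/-- the powers of `σ` indexed by `ZMod N` -/
def T {N : ℕ} (σ : Equiv.Perm Pt) (i : ZMod N) : Equiv.Perm Pt := σ ^ i.val

lemma T_zero {N : ℕ} [NeZero N] (σ : Equiv.Perm Pt) : T σ (0 : ZMod N) = 1 := by
  unfold T; rw [ZMod.val_zero, pow_zero]

lemma T_add {N : ℕ} [NeZero N] {σ : Equiv.Perm Pt} (hσ : σ ^ N = 1) (i j : ZMod N) :
    T σ (i + j) = T σ i * T σ j := by
  unfold T
  rw [ZMod.val_add, ← pow_add]
  conv_rhs => rw [← Nat.mod_add_div (i.val + j.val) N, pow_add, pow_mul, hσ, one_pow, mul_one]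

/-- A cyclic action of order `N > 1` on a set with `1 mod N` elements, all of whose non-identity
elements have at most one fixed element, has a fixed element. -/
lemma exists_fix {N : ℕ} [NeZero N] (hN1 : 1 < N) {α : Type*} [Fintype α] [DecidableEq α]
    (t : ZMod N → α → α) (h0 : ∀ x, t 0 x = x) (hadd : ∀ i j x, t (i + j) x = t i (t j x))
    (k : ℕ) (hcard : Fintype.card α = k * N + 1)
    (huniq : ∀ i, i ≠ 0 → ∀ x y, t i x = x → t i y = y → x = y) :
    ∃ x, ∀ i, t i x = x := by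
  set r := N.minFac with hr
  have hrp : r.Prime := Nat.minFac_prime hN1.ne'
  have hrd : r ∣ N := Nat.minFac_dvd N
  obtain ⟨m, hm⟩ := hrd
  have hmpos : 0 < m := by
    rcases Nat.eq_zero_or_pos m with h | h
    · rw [h, mul_zero] at hm; omega
    · exact h
  have hmN : m < N := by
    rw [hm]; have := hrp.two_le; nlinarith
  have hm0 : (m : ZMod N) ≠ 0 := by
    rw [Ne, ZMod.natCast_eq_zero_iff]
    intro h
    exact absurd (Nat.le_of_dvd hmpos h) (by omega)
  let f : Function.End α := t (m : ZMod N)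
  have hpow : ∀ n : ℕ, ∀ x, (f ^ n) x = t ((n * m : ℕ) : ZMod N) x := by
    intro n
    induction n with
    | zero =>
      intro x
      rw [zero_mul, Nat.cast_zero, h0, pow_zero]; rfl
    | succ n ih =>
      intro x
      rw [pow_succ]
      change (f ^ n) (f x) = _
      rw [ih]
      change t _ (t _ x) = _
      rw [← hadd]
      congr 1
      push_cast
      ring
  have hf : f ^ r ^ 1 = 1 := by
    funext x
    rw [pow_one, hpow, ← hm]
    rw [ZMod.natCast_self, h0]; rfl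
  have : Fact r.Prime := ⟨hrp⟩
  have hmod := Equiv.Perm.card_fixedPoints_modEq hf
  rw [hcard] at hmod
  have hne : Fintype.card f.fixedPoints ≠ 0 := by
    intro hz
    rw [hz, hm] at hmod
    have h1 : (k * (r * m) + 1) ≡ 1 [MOD r] := by
      have : k * (r * m) + 1 = 1 + r * (k * m) := by ring
      rw [this]
      unfold Nat.ModEq
      rw [Nat.add_mul_mod_self_left]
    have h2 := h1.symm.trans hmod
    unfold Nat.ModEq at h2
    rw [Nat.mod_eq_of_lt hrp.one_lt, Nat.zero_mod] at h2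
    exact absurd h2 one_ne_zero
  obtain ⟨⟨x, hx⟩⟩ := Fintype.card_pos_iff.1 (Nat.pos_of_ne_zero hne)
  have hx' : t (m : ZMod N) x = x := hx
  refine ⟨x, fun i => ?_⟩
  apply huniq _ hm0 (t i x) x _ hx'
  rw [← hadd, add_comm, hadd, hx']

section main

variable {G : PG3 Pt q} {N : ℕ} {σ : Equiv.Perm Pt} {S : Finset (Finset Pt)} [NeZero N]

namespace Cyc

lemma one_lt (C : Cyc G N σ S) : 1 < N := by
  have := G.two_le
  rw [C.hN]; nlinarith

lemma lineT (C : Cyc G N σ S) (i : ZMod N) : ∀ l ∈ G.L, im (T σ i) l ∈ G.L := by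
  unfold T
  induction i.val with
  | zero => intro l hl; rwa [pow_zero, im_one]
  | succ n ih => intro l hl; rw [pow_succ, im_mul]; exact ih _ (C.line l hl)

lemma planeT (C : Cyc G N σ S) (i : ZMod N) : ∀ l ∈ G.H, im (T σ i) l ∈ G.H := by
  unfold T
  induction i.val with
  | zero => intro l hl; rwa [pow_zero, im_one]
  | succ n ih => intro l hl; rw [pow_succ, im_mul]; exact ih _ (C.plane l hl)

lemma Tadd (C : Cyc G N σ S) (i j : ZMod N) (x : Pt) : T σ (i + j) x = T σ i (T σ j x) := by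
  rw [T_add C.pow]; rfl

lemma imTadd (C : Cyc G N σ S) (i j : ZMod N) (l : Finset Pt) :
    im (T σ (i + j)) l = im (T σ i) (im (T σ j) l) := by
  rw [T_add C.pow, im_mul]

lemma T0 (_C : Cyc G N σ S) (x : Pt) : T σ (0 : ZMod N) x = x := by rw [T_zero]; rfl

lemma fix_line (C : Cyc G N σ S) {l : Finset Pt} (hl : l ∈ G.L) {i : ZMod N}
    (h : im (T σ i) l = l) : i = 0 := by
  obtain ⟨j, hj, hu⟩ := C.orb l hl
  have h1 := hu (j + i) (by
    change im (T σ (j + i)) l ∈ S
    rw [C.imTadd, h]; exact hj)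
  simpa using h1

lemma fix_pt (C : Cyc G N σ S) {x y : Pt} (hxy : x ≠ y) {i : ZMod N}
    (hx : T σ i x = x) (hy : T σ i y = y) : i = 0 := by
  obtain ⟨l, hl, hxl, hyl⟩ := G.line_ex x y hxy
  apply C.fix_line hl
  apply G.line_uniq _ (C.lineT i l hl) l hl x y hxy _ _ hxl hyl
  · rw [← hx]; exact apply_mem_im.2 hxl
  · rw [← hy]; exact apply_mem_im.2 hyl

lemma fix_plane (C : Cyc G N σ S) {h h' : Finset Pt} (hh : h ∈ G.H) (hh' : h' ∈ G.H)
    (hne : h ≠ h') {i : ZMod N} (h1 : im (T σ i) h = h) (h2 : im (T σ i) h' = h') : i = 0 := by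
  apply C.fix_line (G.plane_inter h hh h' hh' hne)
  rw [im_inter, h1, h2]

lemma exists_pt (C : Cyc G N σ S) : ∃ P : Pt, ∀ i : ZMod N, T σ i P = P := by
  apply exists_fix C.one_lt (fun i x => T σ i x) (fun x => C.T0 x) (fun i j x => C.Tadd i j x) q
  · rw [G.card_pt, C.hN]
  · intro i hi x y hx hy
    by_contra hne
    exact hi (C.fix_pt hne hx hy)

lemma exists_plane (C : Cyc G N σ S) : ∃ h ∈ G.H, ∀ i : ZMod N, im (T σ i) h = h := by
  have := exists_fix C.one_lt (α := {h // h ∈ G.H})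
    (fun i h => ⟨im (T σ i) h.1, C.planeT i h.1 h.2⟩)
    (fun h => Subtype.ext (by simp only; rw [T_zero, im_one]))
    (fun i j h => Subtype.ext (by simp only; rw [C.imTadd])) q
    (by rw [Fintype.card_coe, G.card_H, C.hN])
    (by
      intro i hi x y hx hy
      by_contra hne
      exact hi (C.fix_plane x.2 y.2 (fun h => hne (Subtype.ext h))
        (congrArg Subtype.val hx) (congrArg Subtype.val hy)))
  obtain ⟨⟨h, hh⟩, hfix⟩ := this
  exact ⟨h, hh, fun i => congrArg Subtype.val (hfix i)⟩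

/-- no cyclic packing if `q ≡ 1 mod 3` -/
theorem false_of_one_mod_three (C : Cyc G N σ S) (hq : q % 3 = 1) : False := by
  obtain ⟨P, hP⟩ := C.exists_pt
  obtain ⟨h0, hh0, hfix0⟩ := C.exists_plane
  have h2 := G.two_le
  have h3 : 3 ∣ N := by
    rw [C.hN]
    obtain ⟨k, hk⟩ : ∃ k, q = 3 * k + 1 := ⟨q / 3, by omega⟩
    rw [hk]
    exact ⟨3 * k ^ 2 + 3 * k + 1, by ring⟩
  obtain ⟨m, hm⟩ := h3
  have hNpos := C.one_lt
  have hm0 : (m : ZMod N) ≠ 0 := by
    rw [Ne, ZMod.natCast_eq_zero_iff]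
    intro h
    exact absurd (Nat.le_of_dvd (by omega) h) (by omega)
  have h3m : (m : ZMod N) + ((m : ZMod N) + (m : ZMod N)) = 0 := by
    have h5 : ((3 * m : ℕ) : ZMod N) = 0 := by rw [← hm]; exact ZMod.natCast_self N
    push_cast at h5
    linear_combination h5
  set i : ZMod N := (m : ZMod N) with hi
  obtain ⟨x, hx⟩ : ∃ x, x ∉ insert P h0 := by
    by_contra hcon
    push Not at hcon
    have : (insert P h0).card = Fintype.card Pt := by
      rw [Finset.card_eq_iff_eq_univ]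
      exact Finset.eq_univ_of_forall hcon
    have h4 := Finset.card_insert_le P h0
    rw [this, G.card_pt, G.card_plane h0 hh0] at h4
    nlinarith
  rw [Finset.mem_insert, not_or] at hx
  obtain ⟨hxP, hx0⟩ := hx
  obtain ⟨h, hh, hx1, hx2, hx3⟩ := G.span3 x (T σ i x) (T σ i (T σ i x))
  have e3 : T σ i (T σ i (T σ i x)) = x := by
    rw [← C.Tadd, ← C.Tadd, add_assoc, h3m, C.T0]
  by_cases hfix : im (T σ i) h = h
  · by_cases hne : h = h0
    · exact hx0 (hne ▸ hx1)
    · exact hm0 (C.fix_plane hh hh0 hne hfix (hfix0 i))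
  · set l := im (T σ i) h ∩ h with hl
    have hlL : l ∈ G.L := G.plane_inter _ (C.planeT i h hh) _ hh hfix
    have m1 : x ∈ l := by
      rw [hl, Finset.mem_inter]
      refine ⟨?_, hx1⟩
      rw [← e3]; exact apply_mem_im.2 hx3
    have m2 : T σ i x ∈ l := by
      rw [hl, Finset.mem_inter]
      exact ⟨apply_mem_im.2 hx1, hx2⟩
    have m3 : T σ i (T σ i x) ∈ l := by
      rw [hl, Finset.mem_inter]
      exact ⟨apply_mem_im.2 hx2, hx3⟩
    have hne : x ≠ T σ i x := by
      intro he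
      exact hm0 (C.fix_pt hxP he.symm (hP i))
    apply hm0
    apply C.fix_line hlL
    apply G.line_uniq _ (C.lineT i l hlL) l hlL (T σ i x) (T σ i (T σ i x))
      (fun he => hne ((T σ i).injective he)) (apply_mem_im.2 m1) (apply_mem_im.2 m2) m2 m3

end Cyc

end main

end Pool.Agent.TH353.CP
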