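import Mathlib
import Pool.Agent.TH353.CP.Geo

/-!
Abstract combinatorial part of the non-existence of cyclic packings of `PG(3,q)`, `q` a power of
three: the orbit-sum argument.
-/

set_option autoImplicit false
set_option linter.unusedSectionVars false

namespace Pool.Agent.TH353.CP

open Finset

variable {Pt : Type*} [Fintype Pt] [DecidableEq Pt] {q : ℕ}
variable {G : PG3 Pt q} {N : ℕ} {σ : Equiv.Perm Pt} {S : Finset (Finset Pt)} [NeZero N]

lemma sum_zmod_zero (hN : N = q ^ 2 + q + 1) : ∑ i : ZMod N, i = 0 := by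
  have h1 : ∑ i : ZMod N, i = ∑ i : ZMod N, -i :=
    (Equiv.sum_comp (Equiv.neg (ZMod N)) (fun i => i)).symm
  rw [Finset.sum_neg_distrib] at h1
  have h2 : (2 : ZMod N) * ∑ i : ZMod N, i = 0 := by linear_combination h1
  have hodd : Nat.Coprime 2 N := by
    rw [Nat.coprime_two_left, hN]
    have : q ^ 2 + q + 1 = q * (q + 1) + 1 := by ring
    rw [this]
    exact (Nat.even_mul_succ_self q).add_one
  have hu : IsUnit ((2 : ℕ) : ZMod N) := (ZMod.isUnit_iff_coprime 2 N).2 hodd
  push_cast at hu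
  exact (hu.mul_right_eq_zero).1 h2

/-- The fixed point, fixed plane and base point. -/
structure Fr (C : Cyc G N σ S) (P : Pt) (h0 : Finset Pt) (o : Pt) : Prop where
  fixP : ∀ i : ZMod N, T σ i P = P
  plane : h0 ∈ G.H
  fixh : ∀ i : ZMod N, im (T σ i) h0 = h0
  base : o ∈ h0
  notP : P ∉ h0

namespace Cyc

lemma exists_fr (C : Cyc G N σ S) : ∃ P h0 o, Fr C P h0 o := by
  obtain ⟨P, hP⟩ := C.exists_pt
  obtain ⟨h0, hh0, hfix0⟩ := C.exists_plane
  have h2 := G.two_le
  have hc := G.card_plane h0 hh0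
  obtain ⟨o, ho⟩ : ∃ o ∈ h0, o ≠ P := by
    apply Finset.exists_mem_ne
    rw [hc]; nlinarith
  refine ⟨P, h0, o, hP, hh0, hfix0, ho.1, ?_⟩
  intro hPh
  have hmap : ∀ i : ZMod N, T σ i o ∈ h0.erase P := by
    intro i
    rw [Finset.mem_erase]
    refine ⟨?_, ?_⟩
    · intro h
      apply ho.2
      apply (T σ i).injective
      rw [h, hP]
    · rw [← hfix0 i]; exact apply_mem_im.2 ho.1
  have hinj : Function.Injective (fun i : ZMod N => T σ i o) := by
    intro i j hij
    simp only at hij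
    have : T σ (i - j) o = o := by
      apply (T σ j).injective
      rw [← C.Tadd, add_sub_cancel, hij]
    have := C.fix_pt ho.2 this (hP _)
    exact sub_eq_zero.1 this
  have hcard := Finset.card_le_card_of_injOn (s := Finset.univ) (t := h0.erase P)
    (fun i : ZMod N => T σ i o) (fun i _ => hmap i) (hinj.injOn)
  rw [Finset.card_univ, ZMod.card, Finset.card_erase_of_mem hPh, hc, ← C.hN] at hcard
  have := C.one_lt
  omega

end Cyc

namespace Fr

variable {C : Cyc G N σ S} {P : Pt} {h0 : Finset Pt} {o : Pt}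

lemma o_ne (F : Fr C P h0 o) : o ≠ P := fun h => F.notP (h ▸ F.base)

lemma free (F : Fr C P h0 o) {x : Pt} (hx : x ≠ P) {i : ZMod N} (h : T σ i x = x) : i = 0 :=
  C.fix_pt hx h (F.fixP i)

lemma inj (F : Fr C P h0 o) {x : Pt} (hx : x ≠ P) {i j : ZMod N} (h : T σ i x = T σ j x) :
    i = j := by
  have : T σ (i - j) x = x := by
    apply (T σ j).injective
    rw [← C.Tadd, add_sub_cancel, h]
  exact sub_eq_zero.1 (F.free hx this)

lemma T_mem (F : Fr C P h0 o) {x : Pt} (i : ZMod N) : T σ i x ∈ h0 ↔ x ∈ h0 := by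
  conv_lhs => rw [← F.fixh i]
  exact apply_mem_im

lemma T_ne (F : Fr C P h0 o) {x : Pt} (i : ZMod N) : T σ i x = P ↔ x = P := by
  constructor
  · intro h; apply (T σ i).injective; rw [h, F.fixP]
  · rintro rfl; exact F.fixP i

lemma surj (F : Fr C P h0 o) {x : Pt} (hx : x ∈ h0) : ∃ i : ZMod N, T σ i o = x := by
  have himg : (Finset.univ : Finset (ZMod N)).image (fun i => T σ i o) = h0 := by
    apply Finset.eq_of_subset_of_card_le
    · intro y hy
      obtain ⟨i, _, rfl⟩ := Finset.mem_image.1 hy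
      exact (F.T_mem i).2 F.base
    · rw [Finset.card_image_of_injective _ (fun i j hij => F.inj F.o_ne hij), Finset.card_univ,
        ZMod.card, C.hN, G.card_plane h0 F.plane]
  rw [← himg] at hx
  obtain ⟨i, _, hi⟩ := Finset.mem_image.1 hx
  exact ⟨i, hi⟩

lemma mem_base (F : Fr C P h0 o) (i : ZMod N) : T σ i o ∈ h0 := (F.T_mem i).2 F.base

/-- `i` is the argument of `x` -/
def Arg (_F : Fr C P h0 o) (x : Pt) (i : ZMod N) : Prop :=
  ∃ l ∈ G.L, P ∈ l ∧ x ∈ l ∧ T σ i o ∈ l

lemma line_meet (F : Fr C P h0 o) {l : Finset Pt} (hl : l ∈ G.L) (hlh : ¬ l ⊆ h0) :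
    ∃ i : ZMod N, l ∩ h0 = {T σ i o} := by
  rcases G.plane_line h0 F.plane l hl with h | h
  · exact absurd h hlh
  · obtain ⟨z, hz⟩ := Finset.card_eq_one.1 h
    have hz0 : z ∈ h0 := (Finset.mem_inter.1 (hz ▸ Finset.mem_singleton_self z : z ∈ l ∩ h0)).2
    obtain ⟨i, hi⟩ := F.surj hz0
    exact ⟨i, by rw [hz, hi]⟩

lemma arg_exists (F : Fr C P h0 o) {x : Pt} (hx : x ≠ P) : ∃ i, F.Arg x i := by
  obtain ⟨l, hl, hPl, hxl⟩ := G.line_ex P x (Ne.symm hx)
  obtain ⟨i, hi⟩ := F.line_meet hl (fun h => F.notP (h hPl))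
  refine ⟨i, l, hl, hPl, hxl, ?_⟩
  exact (Finset.mem_inter.1 (hi ▸ Finset.mem_singleton_self _ : T σ i o ∈ l ∩ h0)).1

lemma arg_uniq (F : Fr C P h0 o) {x : Pt} (hx : x ≠ P) {i j : ZMod N} (hi : F.Arg x i)
    (hj : F.Arg x j) : i = j := by
  obtain ⟨l, hl, hPl, hxl, hil⟩ := hi
  obtain ⟨m, hm, hPm, hxm, him⟩ := hj
  have hlm : l = m := G.line_uniq l hl m hm P x (Ne.symm hx) hPl hxl hPm hxm
  subst hlm
  obtain ⟨k, hk⟩ := F.line_meet hl (fun h => F.notP (h hPl))
  have e1 : T σ i o = T σ k o := by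
    have : T σ i o ∈ l ∩ h0 := Finset.mem_inter.2 ⟨hil, F.mem_base i⟩
    rw [hk, Finset.mem_singleton] at this; exact this
  have e2 : T σ j o = T σ k o := by
    have : T σ j o ∈ l ∩ h0 := Finset.mem_inter.2 ⟨him, F.mem_base j⟩
    rw [hk, Finset.mem_singleton] at this; exact this
  exact F.inj F.o_ne (e1.trans e2.symm)

open Classical in
/-- the argument -/
noncomputable def lab (F : Fr C P h0 o) (x : Pt) : ZMod N :=
  if hx : x ≠ P then Classical.choose (F.arg_exists hx) else 0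

lemma lab_spec (F : Fr C P h0 o) {x : Pt} (hx : x ≠ P) : F.Arg x (F.lab x) := by
  unfold lab
  rw [dif_pos hx]
  exact Classical.choose_spec (F.arg_exists hx)

lemma lab_eq (F : Fr C P h0 o) {x : Pt} (hx : x ≠ P) {i : ZMod N} (hi : F.Arg x i) :
    F.lab x = i := F.arg_uniq hx (F.lab_spec hx) hi

lemma lab_P (F : Fr C P h0 o) : F.lab P = 0 := by
  unfold lab
  rw [dif_neg (by simp)]

lemma lab_T (F : Fr C P h0 o) {x : Pt} (hx : x ≠ P) (j : ZMod N) :
    F.lab (T σ j x) = F.lab x + j := by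
  apply F.lab_eq (fun h => hx ((F.T_ne j).1 h))
  obtain ⟨l, hl, hPl, hxl, hil⟩ := F.lab_spec hx
  refine ⟨im (T σ j) l, C.lineT j l hl, ?_, apply_mem_im.2 hxl, ?_⟩
  · rw [← F.fixP j]; exact apply_mem_im.2 hPl
  · rw [add_comm, C.Tadd]; exact apply_mem_im.2 hil

lemma lab_base (F : Fr C P h0 o) (i : ZMod N) : F.lab (T σ i o) = i := by
  have hne : T σ i o ≠ P := fun h => F.o_ne ((F.T_ne i).1 h)
  apply F.lab_eq hne
  obtain ⟨l, hl, hPl, hxl⟩ := G.line_ex P (T σ i o) (Ne.symm hne)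
  exact ⟨l, hl, hPl, hxl, hxl⟩

lemma base_lab (F : Fr C P h0 o) {x : Pt} (hx : x ∈ h0) : T σ (F.lab x) o = x := by
  obtain ⟨i, rfl⟩ := F.surj hx
  rw [F.lab_base]

open Classical in
/-- the weight -/
noncomputable def w (F : Fr C P h0 o) (x : Pt) : ZMod N :=
  if x ∈ h0 then -((q : ZMod N) * F.lab x) else F.lab x

lemma w_P (F : Fr C P h0 o) : F.w P = 0 := by
  unfold w; rw [if_neg F.notP, F.lab_P]

lemma sum_plane (F : Fr C P h0 o) (f : ZMod N → ZMod N) :
    ∑ x ∈ h0, f (F.lab x) = ∑ i : ZMod N, f i := by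
  symm
  apply Finset.sum_bij (fun (i : ZMod N) _ => T σ i o)
  · intro i _; exact F.mem_base i
  · intro i _ j _ h; exact F.inj F.o_ne h
  · intro x hx
    obtain ⟨i, hi⟩ := F.surj hx
    exact ⟨i, Finset.mem_univ _, hi⟩
  · intro i _; rw [F.lab_base]

lemma sum_off (F : Fr C P h0 o) : ∑ x ∈ Finset.univ.filter (fun x => x ∉ h0), F.lab x = 0 := by
  have h1 : ∑ x ∈ Finset.univ.filter (fun x => x ∉ h0), F.lab x =
      ∑ x ∈ Finset.univ.filter (fun x => x ∉ h0 ∧ x ≠ P), F.lab x := by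
    symm
    apply Finset.sum_subset
    · intro x hx
      simp only [Finset.mem_filter, Finset.mem_univ, true_and] at hx ⊢
      exact hx.1
    · intro x hx hx'
      simp only [Finset.mem_filter, Finset.mem_univ, true_and] at hx hx'
      have : x = P := by by_contra h; exact hx' ⟨hx, h⟩
      rw [this, F.lab_P]
  rw [h1, ← Finset.sum_fiberwise_of_maps_to (t := Finset.univ) (g := F.lab)
    (fun _ _ => Finset.mem_univ _)]
  have h2 : ∀ i : ZMod N, ∑ x ∈ (Finset.univ.filter (fun x => x ∉ h0 ∧ x ≠ P)).filter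
      (fun x => F.lab x = i), F.lab x =
      (((Finset.univ.filter (fun x => x ∉ h0 ∧ x ≠ P)).filter
        (fun x => F.lab x = 0)).card : ZMod N) * i := by
    intro i
    rw [Finset.sum_congr rfl (g := fun _ => i) (by
      intro x hx; exact (Finset.mem_filter.1 hx).2), Finset.sum_const, nsmul_eq_mul]
    congr 2
    symm
    apply Finset.card_bij (fun x _ => T σ i x)
    · intro x hx
      simp only [Finset.mem_filter, Finset.mem_univ, true_and] at hx ⊢
      refine ⟨⟨fun h => hx.1.1 ((F.T_mem i).1 h), fun h => hx.1.2 ((F.T_ne i).1 h)⟩, ?_⟩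
      rw [F.lab_T hx.1.2, hx.2, zero_add]
    · intro x _ y _ h; exact (T σ i).injective h
    · intro y hy
      simp only [Finset.mem_filter, Finset.mem_univ, true_and] at hy
      refine ⟨T σ (-i) y, ?_, ?_⟩
      · simp only [Finset.mem_filter, Finset.mem_univ, true_and]
        refine ⟨⟨fun h => hy.1.1 ((F.T_mem _).1 h), fun h => hy.1.2 ((F.T_ne _).1 h)⟩, ?_⟩
        rw [F.lab_T hy.1.2, hy.2, add_neg_cancel]
      · rw [← C.Tadd, add_neg_cancel, C.T0]
  rw [Finset.sum_congr rfl (fun i _ => h2 i), ← Finset.mul_sum, sum_zmod_zero C.hN, mul_zero]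

lemma sum_w (F : Fr C P h0 o) : ∑ x : Pt, F.w x = 0 := by
  rw [← Finset.sum_filter_add_sum_filter_not Finset.univ (fun x => x ∈ h0)]
  have h1 : ∑ x ∈ Finset.univ.filter (fun x => x ∈ h0), F.w x = 0 := by
    rw [Finset.filter_mem_eq_inter, Finset.univ_inter]
    rw [Finset.sum_congr rfl (g := fun x => (fun i => -((q : ZMod N) * i)) (F.lab x)) (by
      intro x hx; unfold w; rw [if_pos hx]), F.sum_plane (fun i => -((q : ZMod N) * i)),
      Finset.sum_neg_distrib,
      ← Finset.mul_sum, sum_zmod_zero C.hN, mul_zero, neg_zero]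
  have h2 : ∑ x ∈ Finset.univ.filter (fun x => x ∉ h0), F.w x = 0 := by
    rw [← F.sum_off]
    apply Finset.sum_congr rfl
    intro x hx
    unfold w; rw [if_neg (Finset.mem_filter.1 hx).2]
  rw [h1, h2, add_zero]

/-- line weight -/
noncomputable def lw (F : Fr C P h0 o) (l : Finset Pt) : ZMod N := ∑ x ∈ l, F.w x

/-- ordinary lines -/
def Ord (_F : Fr C P h0 o) (l : Finset Pt) : Prop := l ∈ G.L ∧ P ∉ l ∧ ¬ l ⊆ h0

lemma ord_T (F : Fr C P h0 o) {l : Finset Pt} (hl : F.Ord l) (j : ZMod N) :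
    F.Ord (im (T σ j) l) := by
  refine ⟨C.lineT j l hl.1, ?_, ?_⟩
  · intro h
    rw [← F.fixP j] at h
    exact hl.2.1 (apply_mem_im.1 h)
  · intro h
    apply hl.2.2
    intro x hx
    exact (F.T_mem j).1 (h (apply_mem_im.2 hx))

lemma lw_T (F : Fr C P h0 o) {l : Finset Pt} (hl : F.Ord l) (j : ZMod N) :
    F.lw (im (T σ j) l) = F.lw l := by
  unfold lw im
  rw [Finset.sum_image (fun x _ y _ h => (T σ j).injective h)]
  have h1 : ∀ x ∈ l, F.w (T σ j x) = F.w x + (j + if x ∈ h0 then -((q : ZMod N) + 1) * j else 0) := by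
    intro x hx
    have hxP : x ≠ P := fun h => hl.2.1 (h ▸ hx)
    unfold w
    by_cases hx0 : x ∈ h0
    · rw [if_pos ((F.T_mem j).2 hx0), if_pos hx0, if_pos hx0, F.lab_T hxP]; ring
    · rw [if_neg (fun h => hx0 ((F.T_mem j).1 h)), if_neg hx0, if_neg hx0, F.lab_T hxP]; ring
  rw [Finset.sum_congr rfl h1, Finset.sum_add_distrib, Finset.sum_add_distrib, Finset.sum_const,
    G.card_line l hl.1, ← Finset.sum_filter, Finset.sum_const]
  obtain ⟨i, hi⟩ := F.line_meet hl.1 hl.2.2
  have h2 : (l.filter (fun x => x ∈ h0)).card = 1 := by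
    rw [Finset.filter_mem_eq_inter, hi, Finset.card_singleton]
  rw [h2, nsmul_eq_mul, one_smul]
  push_cast
  ring

open Classical in
/-- ordinary lines through the base point -/
noncomputable def M0 (_F : Fr C P h0 o) : Finset (Finset Pt) :=
  G.L.filter (fun m => o ∈ m ∧ P ∉ m ∧ ¬ m ⊆ h0)

open Classical in
/-- ordinary lines of the spread -/
noncomputable def SM (_F : Fr C P h0 o) : Finset (Finset Pt) :=
  S.filter (fun m => P ∉ m ∧ ¬ m ⊆ h0)

lemma mem_M0 (F : Fr C P h0 o) {m : Finset Pt} : m ∈ F.M0 ↔ F.Ord m ∧ o ∈ m := by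
  unfold M0 Ord
  rw [Finset.mem_filter]
  tauto

lemma mem_SM (F : Fr C P h0 o) {m : Finset Pt} : m ∈ F.SM ↔ F.Ord m ∧ m ∈ S := by
  unfold SM Ord
  rw [Finset.mem_filter]
  constructor
  · rintro ⟨h1, h2⟩; exact ⟨⟨C.sub h1, h2⟩, h1⟩
  · rintro ⟨⟨_, h2⟩, h1⟩; exact ⟨h1, h2⟩

lemma ord_meet_uniq (F : Fr C P h0 o) {m : Finset Pt} (hm : F.Ord m) {i j : ZMod N}
    (hi : T σ i o ∈ m) (hj : T σ j o ∈ m) : i = j := by
  obtain ⟨k, hk⟩ := F.line_meet hm.1 hm.2.2
  have e1 : T σ i o = T σ k o := by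
    have : T σ i o ∈ m ∩ h0 := Finset.mem_inter.2 ⟨hi, F.mem_base i⟩
    rw [hk, Finset.mem_singleton] at this; exact this
  have e2 : T σ j o = T σ k o := by
    have : T σ j o ∈ m ∩ h0 := Finset.mem_inter.2 ⟨hj, F.mem_base j⟩
    rw [hk, Finset.mem_singleton] at this; exact this
  exact F.inj F.o_ne (e1.trans e2.symm)

lemma sum_SM_eq (F : Fr C P h0 o) : ∑ m ∈ F.M0, F.lw m = ∑ m ∈ F.SM, F.lw m := by
  classical
  have hex : ∀ m ∈ F.M0, ∃ i : ZMod N, im (T σ i) m ∈ S := fun m hm =>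
    let ⟨i, hi, _⟩ := C.orb m (F.mem_M0.1 hm).1.1
    ⟨i, hi⟩
  choose! g hg using hex
  apply Finset.sum_bij (fun m _ => im (T σ (g m)) m)
  · intro m hm
    exact F.mem_SM.2 ⟨F.ord_T (F.mem_M0.1 hm).1 _, hg m hm⟩
  · intro m hm m' hm' h
    have h1 : T σ (g m) o ∈ im (T σ (g m)) m := apply_mem_im.2 (F.mem_M0.1 hm).2
    have h2 : T σ (g m') o ∈ im (T σ (g m)) m := by
      rw [h]; exact apply_mem_im.2 (F.mem_M0.1 hm').2
    have h3 := F.ord_meet_uniq (F.ord_T (F.mem_M0.1 hm).1 (g m)) h1 h2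
    rw [← h3] at h
    have h4 := congrArg (im (T σ (-(g m)))) h
    rwa [← C.imTadd, ← C.imTadd, neg_add_cancel, T_zero, im_one, im_one] at h4
  · intro m hm
    obtain ⟨hO, hS⟩ := F.mem_SM.1 hm
    obtain ⟨k, hk⟩ := F.line_meet hO.1 hO.2.2
    have hkm : T σ k o ∈ m :=
      (Finset.mem_inter.1 (hk ▸ Finset.mem_singleton_self _ : T σ k o ∈ m ∩ h0)).1
    have hm0 : im (T σ (-k)) m ∈ F.M0 := by
      refine F.mem_M0.2 ⟨F.ord_T hO _, ?_⟩
      have : T σ (-k) (T σ k o) = o := by rw [← C.Tadd, neg_add_cancel, C.T0]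
      rw [← this]; exact apply_mem_im.2 hkm
    refine ⟨im (T σ (-k)) m, hm0, ?_⟩
    have h5 := hg _ hm0
    have h6 : im (T σ k) (im (T σ (-k)) m) = m := by
      rw [← C.imTadd, add_neg_cancel, T_zero, im_one]
    obtain ⟨i, _, hiu⟩ := C.orb _ (F.mem_M0.1 hm0).1.1
    have e1 := hiu _ h5
    have e2 := hiu k (by change im (T σ k) (im (T σ (-k)) m) ∈ S; rw [h6]; exact hS)
    rw [e1, ← e2, h6]
  · intro m hm
    rw [F.lw_T (F.mem_M0.1 hm).1]

lemma sum_M0 (F : Fr C P h0 o) : ∑ m ∈ F.M0, F.lw m = 0 := by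
  classical
  unfold lw
  have h1 : ∑ m ∈ F.M0, ∑ x ∈ m, F.w x = ∑ m ∈ F.M0, ∑ x : Pt, if x ∈ m then F.w x else 0 := by
    apply Finset.sum_congr rfl
    intro m _
    rw [Finset.sum_ite_mem, Finset.univ_inter]
  rw [h1, Finset.sum_comm]
  refine Eq.trans ?_ F.sum_off
  rw [Finset.sum_filter]
  apply Finset.sum_congr rfl
  intro x _
  rw [← Finset.sum_filter, Finset.sum_const, nsmul_eq_mul]
  by_cases hx0 : x ∈ h0
  · rw [if_neg (not_not.2 hx0)]
    by_cases hxo : x = o
    · have : F.w x = 0 := by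
        unfold w
        rw [if_pos hx0, hxo]
        have := F.lab_base 0
        rw [C.T0] at this
        rw [this]; ring
      rw [this, mul_zero]
    · have : (F.M0.filter (fun m => x ∈ m)) = ∅ := by
        rw [Finset.filter_eq_empty_iff]
        intro m hm hxm
        obtain ⟨hO, hom⟩ := F.mem_M0.1 hm
        apply hxo
        have e1 : T σ (0 : ZMod N) o ∈ m := by rw [C.T0]; exact hom
        have e2 : T σ (F.lab x) o ∈ m := by rw [F.base_lab hx0]; exact hxm
        have e3 := F.ord_meet_uniq hO e1 e2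
        rw [← F.base_lab hx0, ← e3, C.T0]
      rw [this, Finset.card_empty, Nat.cast_zero, zero_mul]
  · rw [if_pos hx0]
    by_cases hxP : x = P
    · rw [hxP, F.w_P, F.lab_P, mul_zero]
    have hw : F.w x = F.lab x := by unfold w; rw [if_neg hx0]
    rw [hw]
    by_cases hl0 : F.lab x = 0
    · rw [hl0, mul_zero]
    have hxo : o ≠ x := fun h => hx0 (h ▸ F.base)
    obtain ⟨l, hl, hol, hxl⟩ := G.line_ex o x hxo
    have : (F.M0.filter (fun m => x ∈ m)) = {l} := by
      ext m
      rw [Finset.mem_filter, Finset.mem_singleton, F.mem_M0]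
      constructor
      · rintro ⟨⟨hO, hom⟩, hxm⟩
        exact G.line_uniq m hO.1 l hl o x hxo hom hxm hol hxl
      · rintro rfl
        refine ⟨⟨⟨hl, ?_, fun h => hx0 (h hxl)⟩, hol⟩, hxl⟩
        intro hPm
        apply hl0
        apply F.lab_eq hxP
        exact ⟨m, hl, hPm, hxl, by rw [C.T0]; exact hol⟩
    rw [this, Finset.card_singleton, Nat.cast_one, one_mul]

lemma sum_S (F : Fr C P h0 o) : ∑ m ∈ S, F.lw m = 0 := by
  classical
  rw [← F.sum_w]
  unfold lw
  have h1 : ∑ m ∈ S, ∑ x ∈ m, F.w x = ∑ m ∈ S, ∑ x : Pt, if x ∈ m then F.w x else 0 := by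
    apply Finset.sum_congr rfl
    intro m _
    rw [Finset.sum_ite_mem, Finset.univ_inter]
  rw [h1, Finset.sum_comm]
  apply Finset.sum_congr rfl
  intro x _
  rw [← Finset.sum_filter, Finset.sum_const, nsmul_eq_mul]
  obtain ⟨l, hl, hlu⟩ := C.cover x
  have : S.filter (fun m => x ∈ m) = {l} := by
    ext m
    rw [Finset.mem_filter, Finset.mem_singleton]
    constructor
    · intro h; exact hlu m h
    · rintro rfl; exact hl
  rw [this, Finset.card_singleton, Nat.cast_one, one_mul]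

/-- exactly one line of the spread lies in the fixed plane -/
lemma exists_linf (F : Fr C P h0 o) : ∃ l ∈ S, l ⊆ h0 ∧ ∀ m ∈ S, m ⊆ h0 → m = l := by
  classical
  have h2 := G.two_le
  have hS : S.card * (q + 1) = Fintype.card Pt := by
    rw [← Finset.card_univ, Finset.card_eq_sum_ones (Finset.univ : Finset Pt)]
    have : ∑ x : Pt, 1 = ∑ x : Pt, ∑ m ∈ S, if x ∈ m then 1 else 0 := by
      apply Finset.sum_congr rfl
      intro x _
      obtain ⟨l, hl, hlu⟩ := C.cover x
      have h3 : S.filter (fun m => x ∈ m) = {l} := by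
        ext m
        rw [Finset.mem_filter, Finset.mem_singleton]
        constructor
        · intro h; exact hlu m h
        · rintro rfl; exact hl
      rw [← Finset.card_filter, h3, Finset.card_singleton]
    rw [this, Finset.sum_comm, Finset.card_eq_sum_ones, Finset.sum_mul]
    apply Finset.sum_congr rfl
    intro m hm
    rw [← Finset.card_filter, Finset.filter_mem_eq_inter, Finset.univ_inter,
      G.card_line m (C.sub hm), one_mul]
  have hS' : S.card = q ^ 2 + 1 := by
    rw [G.card_pt] at hS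
    have : (q ^ 2 + 1) * (q + 1) = q * (q ^ 2 + q + 1) + 1 := by ring
    rw [← this] at hS
    exact Nat.eq_of_mul_eq_mul_right (by omega) hS
  have hpl : ∑ m ∈ S, (m ∩ h0).card = q ^ 2 + q + 1 := by
    rw [← G.card_plane h0 F.plane, Finset.card_eq_sum_ones h0]
    have : ∑ x ∈ h0, 1 = ∑ x ∈ h0, ∑ m ∈ S, if x ∈ m then 1 else 0 := by
      apply Finset.sum_congr rfl
      intro x _
      obtain ⟨l, hl, hlu⟩ := C.cover x
      have h3 : S.filter (fun m => x ∈ m) = {l} := by
        ext m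
        rw [Finset.mem_filter, Finset.mem_singleton]
        constructor
        · intro h; exact hlu m h
        · rintro rfl; exact hl
      rw [← Finset.card_filter, h3, Finset.card_singleton]
    rw [this, Finset.sum_comm]
    apply Finset.sum_congr rfl
    intro m hm
    rw [← Finset.card_filter, Finset.filter_mem_eq_inter, Finset.inter_comm]
  have hsplit : ∀ m ∈ S, (m ∩ h0).card = 1 + if m ⊆ h0 then q else 0 := by
    intro m hm
    by_cases hmh : m ⊆ h0
    · rw [if_pos hmh, Finset.inter_eq_left.2 hmh, G.card_line m (C.sub hm)]; ring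
    · rw [if_neg hmh]
      rcases G.plane_line h0 F.plane m (C.sub hm) with h | h
      · exact absurd h hmh
      · rw [h]
  rw [Finset.sum_congr rfl hsplit, Finset.sum_add_distrib, ← Finset.card_eq_sum_ones, hS',
    ← Finset.sum_filter, Finset.sum_const, smul_eq_mul] at hpl
  have h1 : (S.filter (fun m => m ⊆ h0)).card = 1 := by
    have : (S.filter (fun m => m ⊆ h0)).card * q = 1 * q := by omega
    exact Nat.eq_of_mul_eq_mul_right (by omega) this
  obtain ⟨l, hl⟩ := Finset.card_eq_one.1 h1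
  have hlm : l ∈ S.filter (fun m => m ⊆ h0) := by rw [hl]; exact Finset.mem_singleton_self l
  refine ⟨l, (Finset.mem_filter.1 hlm).1, (Finset.mem_filter.1 hlm).2, ?_⟩
  intro m hm hmh
  have : m ∈ S.filter (fun m => m ⊆ h0) := Finset.mem_filter.2 ⟨hm, hmh⟩
  rw [hl, Finset.mem_singleton] at this
  exact this

/-- no cyclic packing if `q` is a power of three -/
theorem false_of_pow_three (F : Fr C P h0 o) {h : ℕ} (hh : 0 < h) (hq : q = 3 ^ h) : False := by
  classical
  obtain ⟨linf, hlS, hlh, hlu⟩ := F.exists_linf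
  obtain ⟨mP, ⟨hmS, hPm⟩, hmu⟩ := C.cover P
  have hmne : mP ≠ linf := fun h => F.notP (hlh (h ▸ hPm))
  have hPl : P ∉ linf := fun h => F.notP (hlh h)
  have hmnot : ¬ mP ⊆ h0 := fun h => F.notP (h hPm)
  -- decompose the spread
  have hdec : ∑ m ∈ S, F.lw m = F.lw mP + F.lw linf + ∑ m ∈ F.SM, F.lw m := by
    have hSeq : S = insert mP (insert linf F.SM) := by
      ext m
      rw [Finset.mem_insert, Finset.mem_insert, F.mem_SM]
      constructor
      · intro hm
        by_cases h1 : P ∈ m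
        · left; exact hmu m ⟨hm, h1⟩
        · by_cases h2 : m ⊆ h0
          · right; left; exact hlu m hm h2
          · right; right; exact ⟨⟨C.sub hm, h1, h2⟩, hm⟩
      · rintro (rfl | rfl | ⟨_, h⟩)
        · exact hmS
        · exact hlS
        · exact h
    rw [show ∑ m ∈ S, F.lw m = ∑ m ∈ insert mP (insert linf F.SM), F.lw m from by
      rw [← hSeq]]
    rw [Finset.sum_insert, Finset.sum_insert]
    · ring
    · rw [F.mem_SM]; rintro ⟨h1, _⟩; exact h1.2.2 hlh
    · rw [Finset.mem_insert, F.mem_SM]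
      rintro (h1 | ⟨h1, _⟩)
      · exact hmne h1
      · exact h1.2.1 hPm
  rw [F.sum_S, ← F.sum_SM_eq, F.sum_M0, add_zero] at hdec
  -- the line through `P`
  obtain ⟨b0, hb0⟩ := F.line_meet (C.sub hmS) hmnot
  have hb0m : T σ b0 o ∈ mP :=
    (Finset.mem_inter.1 (hb0 ▸ Finset.mem_singleton_self _ : T σ b0 o ∈ mP ∩ h0)).1
  have hwP : F.lw mP = -b0 := by
    unfold lw
    have h1 : ∀ x ∈ mP, F.w x = b0 + ((if x = P then -b0 else 0) +
        if x = T σ b0 o then -((q : ZMod N) + 1) * b0 else 0) := by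
      intro x hx
      have hne : P ≠ T σ b0 o := fun h => F.notP (h ▸ F.mem_base b0)
      by_cases hxP : x = P
      · rw [if_pos hxP, if_neg (fun h => hne (hxP.symm.trans h)), hxP, F.w_P]; ring
      · rw [if_neg hxP]
        have hlab : F.lab x = b0 := F.lab_eq hxP ⟨mP, C.sub hmS, hPm, hx, hb0m⟩
        by_cases hx0 : x ∈ h0
        · have hxb : x = T σ b0 o := by
            have : x ∈ mP ∩ h0 := Finset.mem_inter.2 ⟨hx, hx0⟩
            rw [hb0, Finset.mem_singleton] at this; exact this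
          rw [if_pos hxb]
          unfold w
          rw [if_pos hx0, hlab]; ring
        · have hxb : x ≠ T σ b0 o := fun h => hx0 (h ▸ F.mem_base b0)
          rw [if_neg hxb]
          unfold w
          rw [if_neg hx0, hlab]; ring
    rw [Finset.sum_congr rfl h1, Finset.sum_add_distrib, Finset.sum_add_distrib, Finset.sum_const,
      G.card_line mP (C.sub hmS), Finset.sum_ite_eq', Finset.sum_ite_eq', if_pos hPm, if_pos hb0m,
      nsmul_eq_mul]
    push_cast
    ring
  -- the difference set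
  set D : Finset (ZMod N) := Finset.univ.filter (fun i => T σ i o ∈ linf) with hD
  have memD : ∀ i, i ∈ D ↔ T σ i o ∈ linf := by
    intro i; rw [hD, Finset.mem_filter]; simp
  have hsumD : ∀ f : ZMod N → ZMod N, ∑ i ∈ D, f i = ∑ x ∈ linf, f (F.lab x) := by
    intro f
    apply Finset.sum_bij (fun (i : ZMod N) _ => T σ i o)
    · intro i hi; exact (memD i).1 hi
    · intro i _ j _ h; exact F.inj F.o_ne h
    · intro x hx
      obtain ⟨i, hi⟩ := F.surj (hlh hx)
      exact ⟨i, (memD i).2 (hi ▸ hx), hi⟩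
    · intro i _; rw [F.lab_base]
  have hwl : F.lw linf = -((q : ZMod N) * ∑ d ∈ D, d) := by
    unfold lw
    have h1 : ∀ x ∈ linf, F.w x = -((q : ZMod N) * F.lab x) := by
      intro x hx; unfold w; rw [if_pos (hlh hx)]
    rw [Finset.sum_congr rfl h1, Finset.sum_neg_distrib, ← Finset.mul_sum, hsumD (fun i => i)]
  have hPDS : PDS q N D := by
    refine ⟨?_, C.hN, ?_⟩
    · rw [← G.card_line linf (C.sub hlS)]
      apply Finset.card_bij (fun (i : ZMod N) _ => T σ i o)
      · intro i hi; exact (memD i).1 hi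
      · intro i _ j _ h; exact F.inj F.o_ne h
      · intro x hx
        obtain ⟨i, hi⟩ := F.surj (hlh hx)
        exact ⟨i, (memD i).2 (hi ▸ hx), hi⟩
    · intro g hg
      have hne : linf ≠ im (T σ g) linf := by
        intro h1
        exact hg (C.fix_line (C.sub hlS) h1.symm)
      have hgh : im (T σ g) linf ⊆ h0 := by
        intro x hx
        obtain ⟨y, hy, rfl⟩ := mem_im.1 hx
        exact (F.T_mem g).2 (hlh hy)
      obtain ⟨z, hz1, hz2⟩ := G.coplanar h0 F.plane linf (C.sub hlS) _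
        (C.lineT g _ (C.sub hlS)) hlh hgh
      obtain ⟨a, ha⟩ := F.surj (hlh hz1)
      rw [Finset.card_eq_one]
      refine ⟨(a, a - g), ?_⟩
      have hag : a - g ∈ D := by
        rw [memD]
        obtain ⟨y, hy, hyz⟩ := mem_im.1 hz2
        have : y = T σ (a - g) o := by
          apply (T σ g).injective
          rw [hyz, ← C.Tadd, add_sub_cancel, ha]
        rw [← this]; exact hy
      ext ⟨b, c⟩
      rw [Finset.mem_filter, Finset.mem_product, Finset.mem_singleton, Prod.mk.injEq]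
      simp only
      constructor
      · rintro ⟨⟨hb, hc⟩, hbc⟩
        have hbz : T σ b o = z := by
          by_contra hne'
          apply hne
          apply G.line_uniq _ (C.sub hlS) _ (C.lineT g _ (C.sub hlS)) _ _ hne' ((memD b).1 hb) hz1
            _ hz2
          rw [show b = g + c from by rw [← hbc]; ring, C.Tadd]
          exact apply_mem_im.2 ((memD c).1 hc)
        have hba : b = a := F.inj F.o_ne (hbz.trans ha.symm)
        refine ⟨hba, ?_⟩
        rw [← hbc, hba]; ring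
      · rintro ⟨rfl, rfl⟩
        exact ⟨⟨(memD _).2 (ha ▸ hz1), hag⟩, by ring⟩
  have hmem := three_mem hPDS hh hq
  rw [hwP, hwl] at hdec
  have hb : b0 = -((q : ZMod N) * ∑ d ∈ D, d) := by linear_combination hdec
  rw [← hb, memD] at hmem
  obtain ⟨l, _, hlu'⟩ := C.cover (T σ b0 o)
  exact hmne ((hlu' mP ⟨hmS, hb0m⟩).trans (hlu' linf ⟨hlS, hmem⟩).symm)

end Fr

theorem Cyc.false_of_pow_three (C : Cyc G N σ S) {h : ℕ} (hh : 0 < h) (hq : q = 3 ^ h) :
    False := by
  obtain ⟨P, h0, o, F⟩ := C.exists_fr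
  exact F.false_of_pow_three hh hq

end Pool.Agent.TH353.CP
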