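import Mathlib
import Pool.Agent.TH353.CP.Defs
import Pool.Agent.TH353.CP.Geo2

/-!
The geometry of `PG(3,q)` from linear algebra.
-/

set_option autoImplicit false
set_option linter.unusedSectionVars false

namespace Pool.Agent.TH353.CP

open scoped LinearAlgebra.Projectivization
open Module

variable {K V : Type*} [Field K] [AddCommGroup V] [Module K V]

section Pts

variable [Fintype (ℙ K V)]

open Classical in
/-- the points of a subspace -/
noncomputable def fpts (W : Submodule K V) : Finset (ℙ K V) :=
  Finset.univ.filter (fun p => p.submodule ≤ W)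

lemma mem_fpts {W : Submodule K V} {p : ℙ K V} : p ∈ fpts W ↔ p.submodule ≤ W := by
  unfold fpts; simp

lemma mk_mem_fpts {W : Submodule K V} {v : V} (hv : v ≠ 0) :
    Projectivization.mk K v hv ∈ fpts W ↔ v ∈ W := by
  rw [mem_fpts, Projectivization.submodule_mk, Submodule.span_singleton_le_iff_mem]

lemma coe_fpts (W : Submodule K V) : (fpts W : Set (ℙ K V)) = {p | p.submodule ≤ W} := by
  ext p; simp [mem_fpts]

lemma fpts_mono {W U : Submodule K V} : fpts W ⊆ fpts U ↔ W ≤ U := by
  constructor
  · intro h v hv
    by_cases h0 : v = 0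
    · rw [h0]; exact U.zero_mem
    · exact (mk_mem_fpts h0).1 (h ((mk_mem_fpts h0).2 hv))
  · intro h p hp
    exact mem_fpts.2 ((mem_fpts.1 hp).trans h)

lemma fpts_inj {W U : Submodule K V} : fpts W = fpts U ↔ W = U := by
  constructor
  · intro h; exact le_antisymm (fpts_mono.1 h.le) (fpts_mono.1 h.ge)
  · rintro rfl; rfl

lemma fpts_inf [DecidableEq (ℙ K V)] (W U : Submodule K V) : fpts (W ⊓ U) = fpts W ∩ fpts U := by
  ext p
  rw [Finset.mem_inter, mem_fpts, mem_fpts, mem_fpts, le_inf_iff]

lemma card_fpts [Finite K] {n : ℕ} (W : Submodule K V) (hW : finrank K W = n) :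
    (fpts W).card = ∑ i ∈ Finset.range n, Nat.card K ^ i := by
  rw [← Projectivization.card_of_finrank K W hW, ← Set.ncard_coe_finset]
  have hr : ((fpts W : Finset (ℙ K V)) : Set (ℙ K V)) =
      Set.range (Projectivization.map W.subtype W.injective_subtype) := by
    ext p
    rw [Finset.mem_coe]
    induction p using Projectivization.ind with | h v hv =>
    rw [mk_mem_fpts]
    constructor
    · intro h
      refine ⟨Projectivization.mk K (⟨v, h⟩ : W) (fun h0 => hv (congrArg Subtype.val h0)), ?_⟩
      rw [Projectivization.map_mk]; rfl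
    · rintro ⟨w, hw⟩
      induction w using Projectivization.ind with | h w hw0 =>
      rw [Projectivization.map_mk, Projectivization.mk_eq_mk_iff'] at hw
      obtain ⟨a, ha⟩ := hw
      have h1 : v = a⁻¹ • (W.subtype w) := by
        have ha0 : a ≠ 0 := by
          rintro rfl
          rw [zero_smul] at ha
          exact hw0 (Subtype.ext ha.symm)
        rw [← ha, smul_smul, inv_mul_cancel₀ ha0, one_smul]
      rw [h1]
      exact W.smul_mem _ w.2
  rw [hr]
  exact Set.ncard_range_of_injective (Projectivization.map_injective W.subtype W.injective_subtype)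

lemma card_pts [Finite K] {n : ℕ} (hV : finrank K V = n) :
    Fintype.card (ℙ K V) = ∑ i ∈ Finset.range n, Nat.card K ^ i := by
  rw [← Projectivization.card_of_finrank K V hV, Nat.card_eq_fintype_card]

end Pts

section Dim

variable [FiniteDimensional K V]

lemma finrank_pt (p : ℙ K V) : finrank K p.submodule = 1 := p.finrank_submodule

lemma finrank_join {x y : ℙ K V} (h : x ≠ y) : finrank K ↥(x.submodule ⊔ y.submodule) = 2 := by
  have h1 := Submodule.finrank_sup_add_finrank_inf_eq x.submodule y.submodule
  rw [finrank_pt, finrank_pt] at h1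
  have h2 : x.submodule ⊓ y.submodule = ⊥ := by
    by_contra hne
    have h3 : 0 < finrank K ↥(x.submodule ⊓ y.submodule) := by
      rw [Module.finrank_pos_iff]
      exact Submodule.nontrivial_iff_ne_bot.2 hne
    have h4 : x.submodule ⊓ y.submodule = x.submodule :=
      Submodule.eq_of_le_of_finrank_le inf_le_left (by rw [finrank_pt]; exact h3)
    have h5 : x.submodule ⊓ y.submodule = y.submodule :=
      Submodule.eq_of_le_of_finrank_le inf_le_right (by rw [finrank_pt]; exact h3)
    exact h (Projectivization.submodule_injective (h4.symm.trans h5))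
  rw [h2, finrank_bot] at h1
  omega

/-- two points on a two-dimensional subspace determine it -/
lemma eq_join {x y : ℙ K V} (h : x ≠ y) {W : Submodule K V} (hW : finrank K W = 2)
    (hx : x.submodule ≤ W) (hy : y.submodule ≤ W) : x.submodule ⊔ y.submodule = W :=
  Submodule.eq_of_le_of_finrank_le (sup_le hx hy) (by rw [hW, finrank_join h])

lemma exists_pt_le {W : Submodule K V} (hW : 0 < finrank K W) : ∃ p : ℙ K V, p.submodule ≤ W := by
  rw [Module.finrank_pos_iff] at hW
  have h2 := Submodule.nontrivial_iff_ne_bot.1 hW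
  obtain ⟨v, hv, hv0⟩ := Submodule.exists_mem_ne_zero_of_ne_bot h2
  refine ⟨Projectivization.mk K v hv0, ?_⟩
  rw [Projectivization.submodule_mk, Submodule.span_singleton_le_iff_mem]
  exact hv

end Dim

section Four

variable (K V)
variable [Finite K] [FiniteDimensional K V] [Fintype (ℙ K V)] [DecidableEq (ℙ K V)]

open Classical in
/-- lines -/
noncomputable def fL : Finset (Finset (ℙ K V)) :=
  Finset.univ.filter (fun l => ∃ W : Submodule K V, finrank K W = 2 ∧ l = fpts W)

open Classical in
/-- planes -/
noncomputable def fH : Finset (Finset (ℙ K V)) :=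
  Finset.univ.filter (fun l => ∃ W : Submodule K V, finrank K W = 3 ∧ l = fpts W)

variable {K V}

lemma mem_fL {l : Finset (ℙ K V)} :
    l ∈ fL K V ↔ ∃ W : Submodule K V, finrank K W = 2 ∧ l = fpts W := by
  unfold fL; simp

lemma mem_fH {l : Finset (ℙ K V)} :
    l ∈ fH K V ↔ ∃ W : Submodule K V, finrank K W = 3 ∧ l = fpts W := by
  unfold fH; simp

lemma card_fH (hV : finrank K V = 4) :
    (fH K V).card = Nat.card K * (Nat.card K ^ 2 + Nat.card K + 1) + 1 := by
  classical
  have : Finite (Dual K V) := Module.finite_of_finite K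
  have := Fintype.ofFinite (ℙ K (Dual K V))
  have h1 : (fH K V).card = Fintype.card (ℙ K (Dual K V)) := by
    rw [← Finset.card_univ]
    symm
    apply Finset.card_bij (fun f _ => fpts (f.submodule.dualCoannihilator))
    · intro f _
      rw [mem_fH]
      refine ⟨_, ?_, rfl⟩
      have h2 := Subspace.finrank_add_finrank_dualCoannihilator_eq (f.submodule)
      rw [finrank_pt, hV] at h2
      omega
    · intro f _ g _ h
      rw [fpts_inj] at h
      apply Projectivization.submodule_injective
      rw [← Subspace.dualCoannihilator_dualAnnihilator_eq (W := f.submodule),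
        ← Subspace.dualCoannihilator_dualAnnihilator_eq (W := g.submodule), h]
    · intro l hl
      obtain ⟨W, hW, rfl⟩ := mem_fH.1 hl
      have h2 := Subspace.finrank_add_finrank_dualAnnihilator_eq W
      rw [hW, hV] at h2
      have h3 : finrank K ↥(W.dualAnnihilator) = 1 := by omega
      refine ⟨Projectivization.mk'' _ h3, Finset.mem_univ _, ?_⟩
      rw [Projectivization.submodule_mk'', Subspace.dualAnnihilator_dualCoannihilator_eq]
  rw [h1, card_pts (n := 4) (by rw [Subspace.dual_finrank_eq, hV])]
  simp [Finset.sum_range_succ]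
  ring

/-- the geometry of `PG(3,q)` -/
noncomputable def pg3 (hV : finrank K V = 4) : PG3 (ℙ K V) (Nat.card K) where
  L := fL K V
  H := fH K V
  two_le := Finite.one_lt_card
  card_pt := by
    rw [card_pts hV]
    simp [Finset.sum_range_succ]
    ring
  card_H := card_fH hV
  card_line := by
    intro l hl
    obtain ⟨W, hW, rfl⟩ := mem_fL.1 hl
    rw [card_fpts W hW]
    simp [Finset.sum_range_succ]
    ring
  card_plane := by
    intro l hl
    obtain ⟨W, hW, rfl⟩ := mem_fH.1 hl
    rw [card_fpts W hW]
    simp [Finset.sum_range_succ]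
    ring
  line_ex := by
    intro x y hxy
    refine ⟨fpts (x.submodule ⊔ y.submodule), mem_fL.2 ⟨_, finrank_join hxy, rfl⟩, ?_, ?_⟩
    · exact mem_fpts.2 le_sup_left
    · exact mem_fpts.2 le_sup_right
  line_uniq := by
    intro l hl m hm x y hxy hxl hyl hxm hym
    obtain ⟨W, hW, rfl⟩ := mem_fL.1 hl
    obtain ⟨U, hU, rfl⟩ := mem_fL.1 hm
    rw [← eq_join hxy hW (mem_fpts.1 hxl) (mem_fpts.1 hyl),
      ← eq_join hxy hU (mem_fpts.1 hxm) (mem_fpts.1 hym)]
  plane_line := by
    intro h hh l hl
    obtain ⟨W, hW, rfl⟩ := mem_fL.1 hl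
    obtain ⟨U, hU, rfl⟩ := mem_fH.1 hh
    by_cases hWU : W ≤ U
    · left; exact fpts_mono.2 hWU
    · right
      rw [← fpts_inf]
      have h1 := Submodule.finrank_sup_add_finrank_inf_eq W U
      have h2 : finrank K ↥(W ⊔ U) = 4 := by
        apply le_antisymm
        · rw [← hV]; exact Submodule.finrank_le _
        · by_contra hlt
          push Not at hlt
          have h3 : U = W ⊔ U :=
            Submodule.eq_of_le_of_finrank_le le_sup_right (by omega)
          exact hWU (by rw [h3]; exact le_sup_left)
      rw [card_fpts (n := 1) _ (by omega)]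
      simp
  plane_inter := by
    intro h hh h' hh' hne
    obtain ⟨W, hW, rfl⟩ := mem_fH.1 hh
    obtain ⟨U, hU, rfl⟩ := mem_fH.1 hh'
    rw [← fpts_inf]
    refine mem_fL.2 ⟨_, ?_, rfl⟩
    have h1 := Submodule.finrank_sup_add_finrank_inf_eq W U
    have h2 : finrank K ↥(W ⊔ U) = 4 := by
      apply le_antisymm
      · rw [← hV]; exact Submodule.finrank_le _
      · by_contra hlt
        push Not at hlt
        have h3 : U = W ⊔ U :=
          Submodule.eq_of_le_of_finrank_le le_sup_right (by omega)
        have h4 : W = W ⊔ U :=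
          Submodule.eq_of_le_of_finrank_le le_sup_left (by omega)
        apply hne
        rw [fpts_inj, h4, ← h3]
    omega
  coplanar := by
    intro h hh l hl m hm hlh hmh
    obtain ⟨U, hU, rfl⟩ := mem_fH.1 hh
    obtain ⟨W, hW, rfl⟩ := mem_fL.1 hl
    obtain ⟨Z, hZ, rfl⟩ := mem_fL.1 hm
    have h1 := Submodule.finrank_sup_add_finrank_inf_eq W Z
    have h2 : finrank K ↥(W ⊔ Z) ≤ 3 := by
      rw [← hU]
      exact Submodule.finrank_mono (sup_le (fpts_mono.1 hlh) (fpts_mono.1 hmh))
    obtain ⟨p, hp⟩ := exists_pt_le (W := W ⊓ Z) (by omega)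
    exact ⟨p, mem_fpts.2 (hp.trans inf_le_left), mem_fpts.2 (hp.trans inf_le_right)⟩
  span3 := by
    intro x y z
    have h1 := Submodule.finrank_add_le_finrank_add_finrank (x.submodule ⊔ y.submodule) z.submodule
    have h2 := Submodule.finrank_add_le_finrank_add_finrank x.submodule y.submodule
    rw [finrank_pt] at h1 h2
    rw [finrank_pt] at h2
    have hlt : x.submodule ⊔ y.submodule ⊔ z.submodule < ⊤ := by
      rw [lt_top_iff_ne_top]
      intro h
      rw [h, finrank_top, hV] at h1
      omega
    obtain ⟨f, hf0, hf⟩ := Submodule.exists_le_ker_of_lt_top _ hlt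
    refine ⟨fpts (LinearMap.ker f), mem_fH.2 ⟨_, ?_, rfl⟩, ?_, ?_, ?_⟩
    · have h3 := LinearMap.finrank_range_add_finrank_ker f
      have h4 : LinearMap.range f = ⊤ := LinearMap.range_eq_top.2 (LinearMap.surjective hf0)
      rw [h4, finrank_top, Module.finrank_self, hV] at h3
      omega
    · exact mem_fpts.2 ((le_sup_left.trans le_sup_left).trans hf)
    · exact mem_fpts.2 ((le_sup_right.trans le_sup_left).trans hf)
    · exact mem_fpts.2 (le_sup_right.trans hf)

end Four

end Pool.Agent.TH353.CP
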