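import Mathlib
import Pool.Agent.TH353.CP.Lin

/-!
`PG(3,q)` has no cyclic packing unless `q ≡ 2 mod 3`.
-/

set_option autoImplicit false
set_option linter.unusedSectionVars false

namespace Pool.Agent.TH353.CP

open scoped LinearAlgebra.Projectivization
open Module

variable {K V : Type*} [Field K] [AddCommGroup V] [Module K V]

lemma moveSpread_mul (g h : Equiv.Perm (ℙ K V)) (S : Set (Set (ℙ K V))) :
    moveSpread (g * h) S = moveSpread g (moveSpread h S) := by
  unfold moveSpread
  rw [Set.image_image]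
  apply Set.image_congr
  intro ℓ _
  rw [Set.image_image]; rfl

lemma moveSpread_one (S : Set (Set (ℙ K V))) : moveSpread 1 S = S := by
  unfold moveSpread
  simp

lemma mem_moveSpread {g : Equiv.Perm (ℙ K V)} {S : Set (Set (ℙ K V))} {ℓ : Set (ℙ K V)} :
    g '' ℓ ∈ moveSpread g S ↔ ℓ ∈ S := by
  unfold moveSpread
  rw [Set.mem_image]
  constructor
  · rintro ⟨m, hm, h⟩
    rwa [← g.injective.image_injective h]
  · intro h; exact ⟨ℓ, h, rfl⟩

section

variable [Finite K] [FiniteDimensional K V] [Fintype (ℙ K V)] [DecidableEq (ℙ K V)]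

lemma isLine_coe {l : Finset (ℙ K V)} : IsLine K V (l : Set (ℙ K V)) ↔ l ∈ fL K V := by
  rw [mem_fL]
  unfold IsLine
  constructor
  · rintro ⟨W, hW, h⟩
    exact ⟨W, hW, by rw [← Finset.coe_inj, coe_fpts, h]⟩
  · rintro ⟨W, hW, h⟩
    exact ⟨W, hW, by rw [h, coe_fpts]⟩

lemma coe_im (g : Equiv.Perm (ℙ K V)) (l : Finset (ℙ K V)) :
    ((im g l : Finset (ℙ K V)) : Set (ℙ K V)) = g '' (l : Set (ℙ K V)) := by
  unfold im; rw [Finset.coe_image]

/-- a collineation maps planes to planes -/
lemma plane_im (hV : finrank K V = 4) {σ : Equiv.Perm (ℙ K V)} (hσ : IsCollineation K V σ) :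
    ∀ h ∈ (pg3 hV).H, im σ h ∈ (pg3 hV).H := by
  intro h hh
  obtain ⟨U, hU, rfl⟩ := mem_fH.1 hh
  -- the image is closed under joining points
  have hclosed : ∀ x ∈ im σ (fpts U), ∀ y ∈ im σ (fpts U), x ≠ y →
      fpts (x.submodule ⊔ y.submodule) ⊆ im σ (fpts U) := by
    intro x hx y hy hxy
    obtain ⟨a, ha, rfl⟩ := mem_im.1 hx
    obtain ⟨b, hb, rfl⟩ := mem_im.1 hy
    have hab : a ≠ b := fun h => hxy (by rw [h])
    have h1 : IsLine K V (σ '' (fpts (a.submodule ⊔ b.submodule) : Set (ℙ K V))) :=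
      hσ _ (isLine_coe.2 (mem_fL.2 ⟨_, finrank_join hab, rfl⟩))
    obtain ⟨W, hW, hW'⟩ := h1
    have h2 : W = (σ a).submodule ⊔ (σ b).submodule := by
      symm
      apply eq_join hxy hW
      · have : σ a ∈ {p : ℙ K V | p.submodule ≤ W} := by
          rw [← hW']
          exact ⟨a, Finset.mem_coe.2 (mem_fpts.2 le_sup_left), rfl⟩
        exact this
      · have : σ b ∈ {p : ℙ K V | p.submodule ≤ W} := by
          rw [← hW']
          exact ⟨b, Finset.mem_coe.2 (mem_fpts.2 le_sup_right), rfl⟩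
        exact this
    intro z hz
    have hz' : z ∈ {p : ℙ K V | p.submodule ≤ W} := by rw [h2]; exact mem_fpts.1 hz
    rw [← hW'] at hz'
    obtain ⟨c, hc, rfl⟩ := hz'
    apply apply_mem_im.2
    have h3 : a.submodule ⊔ b.submodule ≤ U := sup_le (mem_fpts.1 ha) (mem_fpts.1 hb)
    exact fpts_mono.2 h3 hc
  -- the corresponding submodule
  let A : Projectivization.Subspace K V :=
    { carrier := (im σ (fpts U) : Set (ℙ K V))
      mem_add' := by
        intro v w hv hw hvw h1 h2
        rw [Finset.mem_coe] at h1 h2 ⊢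
        by_cases hne : Projectivization.mk K v hv = Projectivization.mk K w hw
        · have : Projectivization.mk K (v + w) hvw = Projectivization.mk K v hv := by
            obtain ⟨a, ha⟩ := (Projectivization.mk_eq_mk_iff' K v w hv hw).1 hne
            have ha0 : a ≠ 0 := by
              rintro rfl
              rw [zero_smul] at ha
              exact hv ha.symm
            rw [Projectivization.mk_eq_mk_iff']
            refine ⟨1 + a⁻¹, ?_⟩
            rw [add_smul, one_smul, ← ha, smul_smul, inv_mul_cancel₀ ha0, one_smul]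
          rw [this]; exact h1
        · apply hclosed _ h1 _ h2 hne
          rw [mk_mem_fpts, Projectivization.submodule_mk, Projectivization.submodule_mk]
          exact Submodule.add_mem_sup (Submodule.mem_span_singleton_self v)
            (Submodule.mem_span_singleton_self w) }
  have hA : fpts (Projectivization.Subspace.submodule A) = im σ (fpts U) := by
    ext p
    induction p using Projectivization.ind with | h v hv =>
    rw [mk_mem_fpts, Projectivization.Subspace.mem_submodule_iff A hv]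
    rfl
  change im σ (fpts U) ∈ fH K V
  rw [mem_fH]
  refine ⟨_, ?_, hA.symm⟩
  -- compare cardinalities
  have hc1 : (fpts (Projectivization.Subspace.submodule A)).card = (fpts U).card := by
    rw [hA, card_im]
  rw [card_fpts _ rfl, card_fpts U hU] at hc1
  have hle : finrank K ↥(Projectivization.Subspace.submodule A) ≤ 4 := by
    rw [← hV]; exact Submodule.finrank_le _
  have hq : 1 < Nat.card K := Finite.one_lt_card
  generalize finrank K ↥(Projectivization.Subspace.submodule A) = n at hc1 hle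
  have hpos : 0 < Nat.card K ^ 2 := by positivity
  have hpos3 : 0 < Nat.card K ^ 3 := by positivity
  interval_cases n <;> simp only [Finset.sum_range_succ, Finset.sum_range_zero] at hc1 ⊢ <;> omega

theorem cyc_of_packing (hV : finrank K V = 4) {P : Set (Set (Set (ℙ K V)))}
    (hP : IsCyclicPacking K V P) :
    ∃ (σ : Equiv.Perm (ℙ K V)) (S : Finset (Finset (ℙ K V))),
      Cyc (pg3 hV) (Nat.card K ^ 2 + Nat.card K + 1) σ S := by
  classical
  obtain ⟨⟨hcard, hspr, -, huniq⟩, σ, hσ, hord, hmap, htrans⟩ := hP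
  set N := Nat.card K ^ 2 + Nat.card K + 1 with hN
  have hpow : σ ^ N = 1 := by rw [← hord]; exact pow_orderOf_eq_one σ
  obtain ⟨S0, hS0⟩ : ∃ S0, S0 ∈ P := by
    have : P.Nonempty := by
      rw [← Set.ncard_pos (Set.toFinite P), hcard, hN]
      omega
    exact this
  have hmapn : ∀ n : ℕ, ∀ S ∈ P, moveSpread (σ ^ n) S ∈ P := by
    intro n
    induction n with
    | zero => intro S hS; rw [pow_zero, moveSpread_one]; exact hS
    | succ n ih => intro S hS; rw [pow_succ, moveSpread_mul]; exact ih _ (hmap S hS)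
  have hlineσ : ∀ l ∈ (pg3 hV).L, im σ l ∈ (pg3 hV).L := by
    intro l hl
    apply isLine_coe.1
    rw [coe_im]
    exact hσ _ (isLine_coe.2 hl)
  have hlinen : ∀ n : ℕ, ∀ l ∈ (pg3 hV).L, im (σ ^ n) l ∈ (pg3 hV).L := by
    intro n
    induction n with
    | zero => intro l hl; rwa [pow_zero, im_one]
    | succ n ih => intro l hl; rw [pow_succ, im_mul]; exact ih _ (hlineσ l hl)
  refine ⟨σ, Finset.univ.filter (fun l : Finset (ℙ K V) => (l : Set (ℙ K V)) ∈ S0), rfl, hpow,
    hlineσ, plane_im hV hσ, ?_, ?_, ?_⟩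
  · intro l hl
    rw [Finset.mem_filter] at hl
    exact isLine_coe.1 ((hspr S0 hS0).2.1 _ hl.2)
  · intro x
    obtain ⟨ℓ, ⟨h1, h2⟩, h3⟩ := (hspr S0 hS0).2.2 x
    refine ⟨ℓ.toFinset, ⟨?_, ?_⟩, ?_⟩
    · rw [Finset.mem_filter, Set.coe_toFinset]
      exact ⟨Finset.mem_univ _, h1⟩
    · rw [Set.mem_toFinset]; exact h2
    · rintro m ⟨hm1, hm2⟩
      rw [Finset.mem_filter] at hm1
      have := h3 (m : Set (ℙ K V)) ⟨hm1.2, Finset.mem_coe.2 hm2⟩
      rw [← this, Finset.toFinset_coe]
  · intro l hl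
    obtain ⟨S1, ⟨hS1, hlS1⟩, hS1u⟩ := huniq (l : Set (ℙ K V)) (isLine_coe.2 hl)
    -- the map `i ↦ σ ^ i S1` is a bijection onto the packing
    have hsurj : Function.Surjective
        (fun i : ZMod N => (⟨moveSpread (σ ^ i.val) S1, hmapn _ _ hS1⟩ : P)) := by
      rintro ⟨S', hS'⟩
      obtain ⟨n, hn⟩ := htrans S1 hS1 S' hS'
      refine ⟨(n : ZMod N), ?_⟩
      apply Subtype.ext
      simp only
      rw [← hn, ZMod.val_natCast]
      congr 1
      conv_rhs => rw [← Nat.mod_add_div n N, pow_add, pow_mul, hpow, one_pow, mul_one]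
    have hbij := hsurj.bijective_of_nat_card_le (by
      rw [Nat.card_zmod, Nat.card_coe_set_eq, hcard])
    obtain ⟨i, hi⟩ := hsurj ⟨S0, hS0⟩
    have hi' : moveSpread (σ ^ i.val) S1 = S0 := congrArg Subtype.val hi
    refine ⟨i, ?_, ?_⟩
    · change im (σ ^ i.val) l ∈ Finset.univ.filter
        (fun l : Finset (ℙ K V) => (l : Set (ℙ K V)) ∈ S0)
      rw [Finset.mem_filter, coe_im, ← hi', mem_moveSpread]
      exact ⟨Finset.mem_univ _, hlS1⟩
    · intro j hj
      change im (σ ^ j.val) l ∈ Finset.univ.filter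
        (fun l : Finset (ℙ K V) => (l : Set (ℙ K V)) ∈ S0) at hj
      rw [Finset.mem_filter, coe_im] at hj
      apply hbij.1
      rw [hi]
      apply Subtype.ext
      simp only
      have hlj : IsLine K V ((σ ^ j.val) '' (l : Set (ℙ K V))) := by
        rw [← coe_im]; exact isLine_coe.2 (hlinen _ l hl)
      obtain ⟨S2, _, hS2u⟩ := huniq _ hlj
      have e1 := hS2u _ ⟨hmapn j.val S1 hS1, mem_moveSpread.2 hlS1⟩
      have e2 := hS2u _ ⟨hS0, hj.2⟩
      rw [e1, e2]

end

/-- If `PG(3,q)` has a cyclic packing, then `q ≡ 2 mod 3`. -/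
theorem mod_three_of_packing [Finite K] (hV : finrank K V = 4) {P : Set (Set (Set (ℙ K V)))}
    (hP : IsCyclicPacking K V P) : Nat.card K % 3 = 2 := by
  classical
  have : FiniteDimensional K V := Module.finite_of_finrank_eq_succ hV
  have : Finite V := Module.finite_of_finite K
  have := Fintype.ofFinite (ℙ K V)
  obtain ⟨σ, S, C⟩ := cyc_of_packing hV hP
  have h3 : Nat.card K % 3 = 0 ∨ Nat.card K % 3 = 1 ∨ Nat.card K % 3 = 2 := by omega
  rcases h3 with h | h | h
  · exfalso
    have := Fintype.ofFinite K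
    obtain ⟨p, hp⟩ := CharP.exists K
    obtain ⟨n, hpp, hn⟩ := FiniteField.card K p
    rw [← Nat.card_eq_fintype_card] at hn
    have h3p : 3 ∣ p ^ (n : ℕ) := by rw [← hn]; exact Nat.dvd_of_mod_eq_zero h
    have h3p' := Nat.prime_three.dvd_of_dvd_pow h3p
    have hp3 : p = 3 := ((Nat.prime_dvd_prime_iff_eq Nat.prime_three hpp).1 h3p').symm
    rw [hp3] at hn
    exact C.false_of_pow_three n.pos hn
  · exact (C.false_of_one_mod_three h).elim
  · exact h

end Pool.Agent.TH353.CP
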