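import Mathlib
import Pool.Agent.TH353.CP.NonEx

/-!
From linear algebra data to a cyclic packing.
-/

set_option autoImplicit false
set_option linter.unusedSectionVars false

namespace Pool.Agent.TH353.CP

open scoped LinearAlgebra.Projectivization
open Module

variable {K V : Type*} [Field K] [AddCommGroup V] [Module K V]

/-- `W` is invariant under `J` -/
def Inv (J : V →ₗ[K] V) (W : Submodule K V) : Prop := ∀ w ∈ W, J w ∈ W

/-- point set of a subspace -/
def pts (W : Submodule K V) : Set (ℙ K V) := {p | p.submodule ≤ W}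

/-- image under a power of `g` -/
def gW (g : V ≃ₗ[K] V) (n : ℕ) (W : Submodule K V) : Submodule K V :=
  W.map ((g ^ n : V ≃ₗ[K] V) : V →ₗ[K] V)

lemma mem_gW {g : V ≃ₗ[K] V} {n : ℕ} {W : Submodule K V} {v : V} :
    v ∈ gW g n W ↔ ∃ w ∈ W, (g ^ n : V ≃ₗ[K] V) w = v := by
  unfold gW
  exact Submodule.mem_map

lemma apply_mem_gW {g : V ≃ₗ[K] V} {n : ℕ} {W : Submodule K V} {v : V} :
    (g ^ n : V ≃ₗ[K] V) v ∈ gW g n W ↔ v ∈ W := by
  rw [mem_gW]
  constructor
  · rintro ⟨w, hw, h⟩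
    rwa [← (g ^ n : V ≃ₗ[K] V).injective h]
  · intro h; exact ⟨v, h, rfl⟩

lemma gW_add (g : V ≃ₗ[K] V) (n m : ℕ) (W : Submodule K V) : gW g (n + m) W = gW g n (gW g m W) := by
  ext v
  rw [mem_gW, mem_gW]
  constructor
  · rintro ⟨w, hw, rfl⟩
    exact ⟨(g ^ m : V ≃ₗ[K] V) w, apply_mem_gW.2 hw, by rw [pow_add]; rfl⟩
  · rintro ⟨w, hw, rfl⟩
    obtain ⟨x, hx, rfl⟩ := mem_gW.1 hw
    exact ⟨x, hx, by rw [pow_add]; rfl⟩

lemma finrank_gW (g : V ≃ₗ[K] V) (n : ℕ) (W : Submodule K V) :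
    finrank K ↥(gW g n W) = finrank K W := by
  unfold gW
  exact LinearEquiv.finrank_map_eq (g ^ n) W

lemma gW_of_pow_eq_one {g : V ≃ₗ[K] V} {n : ℕ} (h : g ^ n = 1) (W : Submodule K V) :
    gW g n W = W := by
  ext v
  rw [mem_gW, h]
  constructor
  · rintro ⟨w, hw, rfl⟩; exact hw
  · intro hv; exact ⟨v, hv, rfl⟩

/-- the permutation of the points induced by `g` -/
def prm (g : V ≃ₗ[K] V) : Equiv.Perm (ℙ K V) := MulAction.toPermHom (V ≃ₗ[K] V) (ℙ K V) g

lemma prm_pow (g : V ≃ₗ[K] V) (n : ℕ) : prm g ^ n = prm (g ^ n) := by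
  unfold prm; rw [map_pow]

lemma prm_mk (g : V ≃ₗ[K] V) {v : V} (hv : v ≠ 0) :
    prm g (Projectivization.mk K v hv) =
      Projectivization.mk K (g v) (fun h => hv (by simpa using h)) := rfl

lemma mk_mem_pts {W : Submodule K V} {v : V} (hv : v ≠ 0) :
    Projectivization.mk K v hv ∈ pts W ↔ v ∈ W := by
  unfold pts
  rw [Set.mem_ofPred_eq, Projectivization.submodule_mk, Submodule.span_singleton_le_iff_mem]

lemma pts_inj {W U : Submodule K V} (h : pts W = pts U) : W = U := by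
  ext v
  by_cases hv : v = 0
  · rw [hv]; simp
  · rw [← mk_mem_pts hv, ← mk_mem_pts hv, h]

lemma prm_pts (g : V ≃ₗ[K] V) (n : ℕ) (W : Submodule K V) :
    (prm g ^ n) '' pts W = pts (gW g n W) := by
  ext p
  rw [prm_pow]
  induction p using Projectivization.ind with | h v hv =>
  rw [mk_mem_pts, mem_gW]
  constructor
  · rintro ⟨x, hx, hxv⟩
    induction x using Projectivization.ind with | h w hw =>
    rw [mk_mem_pts] at hx
    rw [prm_mk, Projectivization.mk_eq_mk_iff'] at hxv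
    obtain ⟨a, ha⟩ := hxv
    have ha0 : a ≠ 0 := by
      rintro rfl
      rw [zero_smul] at ha
      exact hw ((g ^ n : V ≃ₗ[K] V).map_eq_zero_iff.1 ha.symm)
    refine ⟨a⁻¹ • w, W.smul_mem _ hx, ?_⟩
    rw [map_smul, ← ha, smul_smul, inv_mul_cancel₀ ha0, one_smul]
  · rintro ⟨w, hw, rfl⟩
    have hw0 : w ≠ 0 := by
      rintro rfl; exact hv (map_zero _)
    exact ⟨Projectivization.mk K w hw0, (mk_mem_pts hw0).2 hw, rfl⟩

lemma ncard_of_partition {X : Type*} [Finite X] {S : Set (Set X)} {m : ℕ}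
    (h1 : ∀ ℓ ∈ S, ℓ.ncard = m) (h2 : ∀ x, ∃! ℓ, ℓ ∈ S ∧ x ∈ ℓ) : S.ncard * m = Nat.card X := by
  classical
  have := Fintype.ofFinite X
  have := Fintype.ofFinite S
  have e : X ≃ (Σ ℓ : S, (ℓ : Set X)) :=
    { toFun := fun x => ⟨⟨(h2 x).choose, (h2 x).choose_spec.1.1⟩, ⟨x, (h2 x).choose_spec.1.2⟩⟩
      invFun := fun y => y.2.1
      left_inv := fun x => rfl
      right_inv := by
        rintro ⟨⟨ℓ, hℓ⟩, ⟨x, hx⟩⟩
        have : (h2 x).choose = ℓ := ((h2 x).choose_spec.2 ℓ ⟨hℓ, hx⟩).symm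
        simp only
        congr 1
        · exact Subtype.ext this
        · subst this; rfl }
  rw [Nat.card_congr e, Nat.card_sigma]
  rw [Finset.sum_congr rfl (g := fun _ => m) (fun ℓ _ => by
    rw [Nat.card_coe_set_eq]; exact h1 ℓ.1 ℓ.2), Finset.sum_const, smul_eq_mul,
    Finset.card_univ, ← Nat.card_eq_fintype_card, Nat.card_coe_set_eq]

section Main

variable [Finite K] (g : V ≃ₗ[K] V) (J : V →ₗ[K] V)

/-- the spreads -/
def Sp (n : ℕ) : Set (Set (ℙ K V)) :=
  {ℓ | ∃ W : Submodule K V, finrank K W = 2 ∧ Inv J (gW g n W) ∧ ℓ = pts W}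

variable {g J}

lemma mem_Sp {n : ℕ} {W : Submodule K V} (hW : finrank K W = 2) :
    pts W ∈ Sp g J n ↔ Inv J (gW g n W) := by
  constructor
  · rintro ⟨U, _, h2, h3⟩
    rwa [pts_inj h3]
  · intro h; exact ⟨W, hW, h, rfl⟩

lemma finrank_span_J (hJ : ∀ v, J (J v) + J v + v = 0) (hirr : ∀ x : K, x ^ 2 + x + 1 ≠ 0)
    {v : V} (hv : v ≠ 0) : finrank K ↥(Submodule.span K {v, J v}) = 2 := by
  have hli : LinearIndependent K ![v, J v] := by
    rw [LinearIndependent.pair_iff' hv]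
    intro a ha
    apply hirr a
    have h1 := hJ v
    rw [← ha, map_smul, ← ha, smul_smul] at h1
    have h2 : (a ^ 2 + a + 1) • v = 0 := by
      rw [add_smul, add_smul, one_smul, sq]; exact h1
    rcases smul_eq_zero.1 h2 with h | h
    · exact h
    · exact absurd h hv
  have := finrank_span_eq_card hli
  rw [Matrix.range_cons_cons_empty] at this
  simpa using this

lemma span_J_inv (hJ : ∀ v, J (J v) + J v + v = 0) (v : V) :
    Inv J (Submodule.span K {v, J v}) := by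
  intro w hw
  rw [Submodule.mem_span_pair] at hw
  obtain ⟨a, b, rfl⟩ := hw
  rw [map_add, map_smul, map_smul]
  have h1 : J (J v) = -(J v) - v := by
    have := hJ v
    rw [← sub_eq_zero]
    rw [← this]; abel
  rw [h1]
  rw [Submodule.mem_span_pair]
  refine ⟨-b, a - b, ?_⟩
  rw [sub_smul, neg_smul, smul_sub, smul_neg]
  abel

lemma span_J_le {W : Submodule K V} (h : Inv J W) {v : V} (hv : v ∈ W) :
    Submodule.span K {v, J v} ≤ W := by
  rw [Submodule.span_le]
  rintro x (rfl | rfl)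
  · exact hv
  · exact h v hv

/-- a two-dimensional subspace with one nonzero vector `w` and `J w` in it is invariant -/
lemma inv_of_mem (hJ : ∀ v, J (J v) + J v + v = 0) (hirr : ∀ x : K, x ^ 2 + x + 1 ≠ 0)
    {W : Submodule K V} (hW : finrank K W = 2) {w : V} (hw0 : w ≠ 0) (hw : w ∈ W)
    (hJw : J w ∈ W) : Inv J W := by
  have hle : Submodule.span K {w, J w} ≤ W := by
    rw [Submodule.span_le]
    rintro x (rfl | rfl)
    · exact hw
    · exact hJw
  have : FiniteDimensional K W := Module.finite_of_finrank_eq_succ hW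
  have heq : Submodule.span K {w, J w} = W :=
    Submodule.eq_of_le_of_finrank_le hle (by rw [hW, finrank_span_J hJ hirr hw0])
  rw [← heq]
  exact span_J_inv hJ w

theorem packing_of_data (hV : finrank K V = 4) (hJ : ∀ v, J (J v) + J v + v = 0)
    (hirr : ∀ x : K, x ^ 2 + x + 1 ≠ 0) (hg : g ^ (Nat.card K ^ 2 + Nat.card K + 1) = 1)
    (key : ∀ W : Submodule K V, finrank K W = 2 →
      ∃! n, n < Nat.card K ^ 2 + Nat.card K + 1 ∧ Inv J (gW g n W)) :
    ∃ P, IsCyclicPacking K V P := by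
  classical
  have : FiniteDimensional K V := Module.finite_of_finrank_eq_succ hV
  have : Finite V := Module.finite_of_finite K
  have := Fintype.ofFinite (ℙ K V)
  set N := Nat.card K ^ 2 + Nat.card K + 1 with hN
  have hNpos : 0 < N := by omega
  have hmod : ∀ n : ℕ, ∀ W : Submodule K V, gW g n W = gW g (n % N) W := by
    intro n W
    conv_lhs => rw [← Nat.mod_add_div n N, gW_add]
    rw [gW_of_pow_eq_one (n := N * (n / N)) (by rw [pow_mul, hg, one_pow])]
  -- some line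
  obtain ⟨v0, hv0⟩ : ∃ v : V, v ≠ 0 := by
    have : Nontrivial V := Module.nontrivial_of_finrank_pos (R := K) (by omega)
    exact exists_ne 0
  have hSpN : ∀ n, Sp g J n = Sp g J (n % N) := by
    intro n
    ext ℓ
    constructor
    · rintro ⟨W, h1, h2, h3⟩
      exact ⟨W, h1, by rw [← hmod]; exact h2, h3⟩
    · rintro ⟨W, h1, h2, h3⟩
      exact ⟨W, h1, by rw [hmod]; exact h2, h3⟩
  have hne : ∀ n, (Sp g J n).Nonempty := by
    intro n
    -- pull back a `J`-invariant plane by `g ^ n`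
    obtain ⟨m, hm⟩ : ∃ m, (m + n) % N = 0 := by
      refine ⟨N * n - n, ?_⟩
      have : N * n - n + n = N * n := Nat.sub_add_cancel (Nat.le_mul_of_pos_left n hNpos)
      rw [this, Nat.mul_mod_right]
    refine ⟨pts (gW g m (Submodule.span K {v0, J v0})), _, ?_, ?_, rfl⟩
    · rw [finrank_gW, finrank_span_J hJ hirr hv0]
    · rw [← gW_add, hmod, add_comm, hm]
      rw [gW_of_pow_eq_one (pow_zero g)]
      exact span_J_inv hJ v0
  have huniqN : ∀ n m, ∀ ℓ, ℓ ∈ Sp g J n → ℓ ∈ Sp g J m → n % N = m % N := by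
    rintro n m ℓ ⟨W, h1, h2, h3⟩ ⟨U, _, h2', h3'⟩
    have hWU : W = U := pts_inj (h3.symm.trans h3')
    subst hWU
    obtain ⟨i, _, hi⟩ := key W h1
    have e1 := hi (n % N) ⟨Nat.mod_lt _ hNpos, by rw [← hmod]; exact h2⟩
    have e2 := hi (m % N) ⟨Nat.mod_lt _ hNpos, by rw [← hmod]; exact h2'⟩
    rw [e1, e2]
  have hmove : ∀ k n, moveSpread (prm g ^ k) (Sp g J (n + k)) = Sp g J n := by
    intro k n
    ext ℓ
    constructor
    · rintro ⟨m, ⟨W, h1, h2, rfl⟩, rfl⟩
      refine ⟨gW g k W, by rw [finrank_gW, h1], ?_, ?_⟩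
      · rw [← gW_add]; exact h2
      · simp only; rw [prm_pts]
    · rintro ⟨W, h1, h2, rfl⟩
      obtain ⟨m, hm⟩ : ∃ m, (m + k) % N = 0 := by
        refine ⟨N * k - k, ?_⟩
        have : N * k - k + k = N * k := Nat.sub_add_cancel (Nat.le_mul_of_pos_left k hNpos)
        rw [this, Nat.mul_mod_right]
      have hkm : gW g k (gW g m W) = W := by
        rw [← gW_add, add_comm, hmod, hm, gW_of_pow_eq_one (pow_zero g)]
      refine ⟨pts (gW g m W), ⟨gW g m W, by rw [finrank_gW, h1], ?_, rfl⟩, ?_⟩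
      · rw [gW_add, hkm]; exact h2
      · simp only; rw [prm_pts, hkm]
  refine ⟨(fun n => Sp g J n) '' (Set.Iio N), ⟨?_, ?_, ?_, ?_⟩, prm g, ?_, ?_, ?_, ?_⟩
  · -- number of spreads
    rw [Set.InjOn.ncard_image]
    · rw [Set.ncard_eq_toFinset_card']; simp [hN]
    · intro n hn m hm h
      simp only at h
      obtain ⟨ℓ, hℓ⟩ := hne n
      have := huniqN n m ℓ hℓ (h ▸ hℓ)
      rwa [Nat.mod_eq_of_lt hn, Nat.mod_eq_of_lt hm] at this
  · -- spreads
    rintro S ⟨n, hn, rfl⟩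
    simp only
    have hlines : ∀ ℓ ∈ Sp g J n, IsLine K V ℓ := by
      rintro ℓ ⟨W, h1, _, rfl⟩
      exact ⟨W, h1, rfl⟩
    have hcov : ∀ p : ℙ K V, ∃! ℓ, ℓ ∈ Sp g J n ∧ p ∈ ℓ := by
      intro p
      induction p using Projectivization.ind with | h v hv =>
      obtain ⟨m, hm⟩ : ∃ m, (m + n) % N = 0 := by
        refine ⟨N * n - n, ?_⟩
        have : N * n - n + n = N * n := Nat.sub_add_cancel (Nat.le_mul_of_pos_left n hNpos)
        rw [this, Nat.mul_mod_right]
      have hnm : ∀ W : Submodule K V, gW g n (gW g m W) = W := by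
        intro W
        rw [← gW_add, add_comm, hmod, hm, gW_of_pow_eq_one (pow_zero g)]
      have hmn : ∀ W : Submodule K V, gW g m (gW g n W) = W := by
        intro W
        rw [← gW_add, hmod, hm, gW_of_pow_eq_one (pow_zero g)]
      set v' := (g ^ n : V ≃ₗ[K] V) v with hv'
      have hv'0 : v' ≠ 0 := fun h => hv ((g ^ n : V ≃ₗ[K] V).map_eq_zero_iff.1 h)
      refine ⟨pts (gW g m (Submodule.span K {v', J v'})), ⟨⟨_, ?_, ?_, rfl⟩, ?_⟩, ?_⟩
      · rw [finrank_gW, finrank_span_J hJ hirr hv'0]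
      · rw [hnm]; exact span_J_inv hJ v'
      · rw [mk_mem_pts]
        have h1 : v' ∈ Submodule.span K {v', J v'} := Submodule.subset_span (by simp)
        rw [← apply_mem_gW (g := g) (n := n), hnm]
        exact h1
      · rintro ℓ ⟨⟨W, h1, h2, rfl⟩, h4⟩
        rw [mk_mem_pts] at h4
        have h5 : v' ∈ gW g n W := apply_mem_gW.2 h4
        have h6 := span_J_le h2 h5
        have h7 : Submodule.span K {v', J v'} = gW g n W :=
          Submodule.eq_of_le_of_finrank_le h6 (by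
            rw [finrank_gW, h1, finrank_span_J hJ hirr hv'0])
        rw [h7, hmn]
    refine ⟨?_, hlines, hcov⟩
    have hc := ncard_of_partition (m := Nat.card K + 1) (S := Sp g J n) (by
      rintro ℓ ⟨W, h1, _, rfl⟩
      have : pts W = ((fpts W : Finset (ℙ K V)) : Set (ℙ K V)) := (coe_fpts W).symm
      rw [this, Set.ncard_coe_finset, card_fpts W h1]
      simp [Finset.sum_range_succ]; ring) hcov
    rw [Projectivization.card_of_finrank K V hV] at hc
    have h2 : ∑ i ∈ Finset.range 4, Nat.card K ^ i = (Nat.card K ^ 2 + 1) * (Nat.card K + 1) := by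
      simp [Finset.sum_range_succ]; ring
    rw [h2] at hc
    exact Nat.eq_of_mul_eq_mul_right (by omega) hc
  · -- disjointness
    rintro S ⟨n, hn, rfl⟩ S' ⟨m, hm, rfl⟩ hne'
    rw [Set.disjoint_left]
    intro ℓ h1 h2
    apply hne'
    have := huniqN n m ℓ h1 h2
    rw [Nat.mod_eq_of_lt hn, Nat.mod_eq_of_lt hm] at this
    rw [this]
  · -- every line in exactly one spread
    rintro ℓ ⟨W, hW, rfl⟩
    obtain ⟨n, ⟨hn, hinv⟩, hnu⟩ := key W hW
    refine ⟨Sp g J n, ⟨⟨n, hn, rfl⟩, ⟨W, hW, hinv, rfl⟩⟩, ?_⟩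
    rintro S ⟨⟨m, hm, rfl⟩, h⟩
    have hh := (mem_Sp hW).1 h
    simp only
    rw [hnu m ⟨hm, hh⟩]
  · -- collineation
    rintro ℓ ⟨W, hW, rfl⟩
    refine ⟨gW g 1 W, by rw [finrank_gW, hW], ?_⟩
    have := prm_pts g 1 W
    rw [pow_one] at this
    exact this
  · -- order
    rw [orderOf_eq_iff hNpos]
    constructor
    · rw [prm_pow, hg]; unfold prm; rw [map_one]
    · intro m hm hm0 h
      have h1 := hmove m 0
      rw [h, moveSpread_one, zero_add] at h1
      obtain ⟨ℓ, hℓ⟩ := hne m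
      have := huniqN m 0 ℓ hℓ (h1 ▸ hℓ)
      rw [Nat.mod_eq_of_lt hm, Nat.zero_mod] at this
      omega
  · -- the spreads are permuted
    rintro S ⟨n, hn, rfl⟩
    have h1 := hmove 1 (n + (N - 1))
    rw [pow_one] at h1
    have h2 : n + (N - 1) + 1 = n + N := by omega
    rw [h2, hSpN (n + N), Nat.add_mod_right, ← hSpN] at h1
    simp only
    rw [h1, hSpN]
    exact ⟨_, Nat.mod_lt _ hNpos, rfl⟩
  · -- transitivity
    rintro S ⟨n, hn, rfl⟩ S' ⟨m, hm, rfl⟩
    simp only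
    have hn' : n < N := hn
    have hm' : m < N := hm
    refine ⟨n + (N - m), ?_⟩
    have h1 := hmove (n + (N - m)) m
    have h2 : m + (n + (N - m)) = n + N := by omega
    rw [h2, hSpN (n + N), Nat.add_mod_right, ← hSpN] at h1
    exact h1

end Main

end Pool.Agent.TH353.CP
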