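import Mathlib
import Pool.Agent.TH353.CP.Ex1
import Pool.Agent.TH353.CP.Alg

/-!
The cyclic packings of `PG(3,q)`, `q ≡ 2 mod 3`.
-/

set_option autoImplicit false
set_option linter.unusedSectionVars false

namespace Pool.Agent.TH353.CP

open scoped LinearAlgebra.Projectivization
open Module

section Field3

variable (K L : Type*) [Field K] [Field L] [Algebra K L] [Fintype K] [Finite L]

/-- Frobenius -/
noncomputable def fr : L →ₐ[K] L := FiniteField.frobeniusAlgHom K L

variable {K L}

lemma fr_apply (x : L) : fr K L x = x ^ Fintype.card K := rfl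

lemma fr3 (h3 : finrank K L = 3) (x : L) : fr K L (fr K L (fr K L x)) = x := by
  rw [fr_apply, fr_apply, fr_apply, ← pow_mul, ← pow_mul]
  have := Fintype.ofFinite L
  have hc : Fintype.card L = Fintype.card K * Fintype.card K * Fintype.card K := by
    have := Module.card_eq_pow_finrank (K := K) (V := L)
    rw [this, h3]; ring
  have h2 := FiniteField.pow_card x
  rw [hc] at h2
  rw [← mul_assoc]; exact h2

/-- no zero divisors: `3 ≠ 0` -/
lemma three_ne (hq : Fintype.card K % 3 = 2) : (3 : K) ≠ 0 := by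
  intro h
  obtain ⟨p, hp⟩ := CharP.exists K
  obtain ⟨n, hpp, hn⟩ := FiniteField.card K p
  have h1 : ((3 : ℕ) : K) = 0 := by exact_mod_cast h
  have h2 := (CharP.cast_eq_zero_iff K p 3).1 h1
  have h3 : p = 3 := (Nat.prime_dvd_prime_iff_eq hpp Nat.prime_three).1 h2
  rw [hn, h3] at hq
  have : 3 ∣ 3 ^ (n : ℕ) := dvd_pow_self 3 n.pos.ne'
  omega

lemma three_ne' (hq : Fintype.card K % 3 = 2) : (3 : L) ≠ 0 := by
  have h := three_ne hq
  intro h0
  apply h
  apply (algebraMap K L).injective
  rw [map_zero, map_ofNat]; exact h0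

lemma trace_eq (h3 : finrank K L = 3) (x : L) :
    algebraMap K L (Algebra.trace K L x) = x + fr K L x + fr K L (fr K L x) := by
  rw [FiniteField.algebraMap_trace_eq_sum_pow, h3, Finset.sum_range_succ, Finset.sum_range_succ,
    Finset.sum_range_one, fr_apply, fr_apply, Nat.card_eq_fintype_card, ← pow_mul]
  ring

lemma norm_eq (h3 : finrank K L = 3) (x : L) :
    algebraMap K L (Algebra.norm K x) = n3 (fr K L : L →+* L) x := by
  rw [FiniteField.algebraMap_norm_eq_prod_pow, h3, Finset.prod_range_succ, Finset.prod_range_succ,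
    Finset.prod_range_one]
  unfold n3
  change _ = x * fr K L x * fr K L (fr K L x)
  rw [fr_apply, fr_apply, Nat.card_eq_fintype_card, ← pow_mul]
  ring

lemma n3_pow (x : L) : n3 (fr K L : L →+* L) x = x ^ (Fintype.card K ^ 2 + Fintype.card K + 1) := by
  unfold n3
  change x * fr K L x * fr K L (fr K L x) = _
  rw [fr_apply, fr_apply, ← pow_mul]
  ring

lemma n3_mul (x y : L) : n3 (fr K L : L →+* L) (x * y) =
    n3 (fr K L : L →+* L) x * n3 (fr K L : L →+* L) y := by
  rw [n3_pow, n3_pow, n3_pow, mul_pow]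

lemma fixed (h3 : finrank K L = 3) (hq : Fintype.card K % 3 = 2) {x : L} (hx : fr K L x = x) :
    ∃ k : K, algebraMap K L k = x := by
  refine ⟨Algebra.trace K L x / 3, ?_⟩
  rw [map_div₀, trace_eq h3, hx, hx, map_ofNat]
  have := three_ne' (L := L) hq
  field_simp
  ring

lemma cube_ex (hq : Fintype.card K % 3 = 2) (n : L) (hn : fr K L n = n) :
    ∃ k, fr K L k = k ∧ k ^ 3 = n := by
  obtain ⟨m, hm⟩ : ∃ m, Fintype.card K = 3 * m + 2 := ⟨Fintype.card K / 3, by omega⟩
  refine ⟨n ^ (2 * m + 1), by rw [map_pow, hn], ?_⟩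
  rw [fr_apply, hm] at hn
  calc (n ^ (2 * m + 1)) ^ 3 = n ^ (3 * m + 2) * n ^ (3 * m + 1) := by ring
    _ = n * n ^ (3 * m + 1) := by rw [hn]
    _ = n ^ (3 * m + 2) := by ring
    _ = n := hn

lemma cube_inj (hq : Fintype.card K % 3 = 2) (k k' : L) (hk : fr K L k = k)
    (hk' : fr K L k' = k') (h : k ^ 3 = k' ^ 3) : k = k' := by
  obtain ⟨m, hm⟩ : ∃ m, Fintype.card K = 3 * m + 2 := ⟨Fintype.card K / 3, by omega⟩
  rw [fr_apply, hm] at hk hk'
  have key : ∀ n : L, n ^ (3 * m + 2) = n → n = (n ^ 3) ^ (2 * m + 1) := by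
    intro n hn
    symm
    calc (n ^ 3) ^ (2 * m + 1) = n ^ (3 * m + 2) * n ^ (3 * m + 1) := by ring
      _ = n * n ^ (3 * m + 1) := by rw [hn]
      _ = n ^ (3 * m + 2) := by ring
      _ = n := hn
  rw [key k hk, key k' hk', h]

lemma fr_algebraMap (k : K) : fr K L (algebraMap K L k) = algebraMap K L k :=
  (fr K L).commutes k

/-- scaling to norm one -/
lemma exists_scale (h3 : finrank K L = 3) (hq : Fintype.card K % 3 = 2) {b : L} (hb : b ≠ 0) :
    ∃ l : K, l ≠ 0 ∧ n3 (fr K L : L →+* L) (l • b) = 1 := by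
  have hf : fr K L (n3 (fr K L : L →+* L) b) = n3 (fr K L : L →+* L) b := by
    rw [← norm_eq h3]; exact fr_algebraMap _
  have hne : n3 (fr K L : L →+* L) b ≠ 0 := by rw [n3_pow]; exact pow_ne_zero _ hb
  obtain ⟨k, hk, hk3⟩ := cube_ex (L := L) hq ((n3 (fr K L : L →+* L) b)⁻¹) (by rw [map_inv₀, hf])
  obtain ⟨l, hl⟩ := fixed h3 hq hk
  have hk0 : k ≠ 0 := by
    rintro rfl
    rw [zero_pow (by norm_num)] at hk3
    exact inv_ne_zero hne hk3.symm
  refine ⟨l, ?_, ?_⟩
  · rintro rfl
    rw [map_zero] at hl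
    exact hk0 hl.symm
  · rw [Algebra.smul_def, n3_mul, hl]
    have : n3 (fr K L : L →+* L) k = k ^ 3 := by
      unfold n3
      change k * fr K L k * fr K L (fr K L k) = _
      rw [hk, hk]; ring
    rw [this, hk3, inv_mul_cancel₀ hne]

lemma irr (hq : Fintype.card K % 3 = 2) (x : K) : x ^ 2 + x + 1 ≠ 0 := by
  intro h
  have h1 : x ^ 3 = 1 ^ 3 := by linear_combination (x - 1) * h
  have h2 := cube_inj (K := K) (L := K) hq x 1 (by rw [fr_apply]; exact FiniteField.pow_card x)
    (map_one _) h1
  rw [h2] at h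
  apply three_ne hq
  linear_combination h

end Field3

section Space

variable (K L : Type*) [Field K] [Field L] [Algebra K L] [Fintype K] [Finite L]

/-- the operator `J (x, t) = (x ^ q + t, - Tr x - 2 t)` -/
noncomputable def Jop : (L × K) →ₗ[K] (L × K) :=
  LinearMap.prod
    ((fr K L).toLinearMap ∘ₗ LinearMap.fst K L K + Algebra.linearMap K L ∘ₗ LinearMap.snd K L K)
    (-(Algebra.trace K L ∘ₗ LinearMap.fst K L K) - (2 : K) • LinearMap.snd K L K)

variable {K L}

lemma Jop_apply (x : L) (t : K) :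
    Jop K L (x, t) = (fr K L x + algebraMap K L t, -Algebra.trace K L x - 2 * t) := by
  unfold Jop
  simp [LinearMap.prod_apply]

lemma trace_fr (h3 : finrank K L = 3) (x : L) :
    Algebra.trace K L (fr K L x) = Algebra.trace K L x := by
  apply (algebraMap K L).injective
  rw [trace_eq h3, trace_eq h3, fr3 h3]
  ring

lemma trace_alg (h3 : finrank K L = 3) (t : K) :
    Algebra.trace K L (algebraMap K L t) = 3 * t := by
  rw [Algebra.trace_algebraMap, h3, nsmul_eq_mul]; norm_num

lemma Jop_rel (h3 : finrank K L = 3) (v : L × K) : Jop K L (Jop K L v) + Jop K L v + v = 0 := by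
  obtain ⟨x, t⟩ := v
  rw [Jop_apply, Jop_apply]
  rw [Prod.mk_add_mk, Prod.mk_add_mk, Prod.mk_eq_zero]
  constructor
  · rw [map_add, fr_algebraMap, map_sub, map_neg, trace_eq h3, map_mul, map_ofNat]
    ring
  · dsimp only
    rw [map_add, trace_fr h3, trace_alg h3]
    ring

/-- multiplication of the first coordinate by `η` -/
noncomputable def Gl (η : L) : (L × K) →ₗ[K] (L × K) :=
  LinearMap.prodMap (LinearMap.mulLeft K η) LinearMap.id

lemma Gl_apply (η x : L) (t : K) : Gl (K := K) η (x, t) = (η * x, t) := rfl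

lemma Gl_inj {η : L} (hη : η ≠ 0) : Function.Injective (Gl (K := K) η) := by
  rintro ⟨x, t⟩ ⟨y, s⟩ h
  rw [Gl_apply, Gl_apply, Prod.mk.injEq] at h
  rw [mul_left_cancel₀ hη h.1, h.2]

lemma finrank_Gl {η : L} (hη : η ≠ 0) (W : Submodule K (L × K)) :
    finrank K ↥(W.map (Gl η)) = finrank K W :=
  LinearEquiv.finrank_eq (Submodule.equivMapOfInjective (Gl η) (Gl_inj hη) W).symm

lemma n3_ne {η : L} (h : n3 (fr K L : L →+* L) η = 1) : η ≠ 0 := by
  rintro rfl
  rw [n3_pow, zero_pow (by omega)] at h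
  exact zero_ne_one h

/-- affine lines -/
lemma key_affine (h3 : finrank K L = 3) (hq : Fintype.card K % 3 = 2)
    {W : Submodule K (L × K)} (hW : finrank K W = 2) {a b : L} (ha : (a, (1 : K)) ∈ W)
    (hb : (b, (0 : K)) ∈ W) (hb0 : b ≠ 0) :
    ∃! η : L, n3 (fr K L : L →+* L) η = 1 ∧ Inv (Jop K L) (W.map (Gl η)) := by
  have hfd : FiniteDimensional K W := Module.finite_of_finrank_eq_succ hW
  obtain ⟨l, hl0, hl⟩ := exists_scale h3 hq hb0
  obtain ⟨b', hb'⟩ : ∃ b', b' = l • b := ⟨_, rfl⟩
  have hb'W : (b', (0 : K)) ∈ W := by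
    have : (b', (0 : K)) = l • (b, (0 : K)) := by rw [hb', Prod.smul_mk, smul_zero]
    rw [this]; exact W.smul_mem _ hb
  rw [← hb'] at hl
  have hb'0 : b' ≠ 0 := n3_ne hl
  -- membership in `W`
  have hmem : ∀ x : L, ∀ t : K, (x, t) ∈ W ↔ ∃ s : K, x = t • a + s • b' := by
    intro x t
    have hli : LinearIndependent K ![(a, (1 : K)), (b', (0 : K))] := by
      rw [LinearIndependent.pair_iff]
      intro s r h
      rw [Prod.smul_mk, Prod.smul_mk, Prod.mk_add_mk, Prod.mk_eq_zero] at h
      obtain ⟨h1, h2⟩ := h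
      have hs : s = 0 := by simpa using h2
      refine ⟨hs, ?_⟩
      rw [hs, zero_smul, zero_add] at h1
      rcases smul_eq_zero.1 h1 with h | h
      · exact h
      · exact absurd h hb'0
    have hspan : Submodule.span K {(a, (1 : K)), (b', (0 : K))} = W := by
      apply Submodule.eq_of_le_of_finrank_le
      · rw [Submodule.span_le]
        rintro y (rfl | rfl)
        · exact ha
        · exact hb'W
      · have := finrank_span_eq_card hli
        rw [Matrix.range_cons_cons_empty] at this
        rw [hW, this]; simp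
    rw [← hspan, Submodule.mem_span_pair]
    constructor
    · rintro ⟨s, r, h⟩
      rw [Prod.smul_mk, Prod.smul_mk, Prod.mk_add_mk, Prod.mk.injEq] at h
      obtain ⟨h1, h2⟩ := h
      have hs : s = t := by simpa using h2
      exact ⟨r, by rw [← h1, hs]⟩
    · rintro ⟨s, hs⟩
      refine ⟨t, s, ?_⟩
      rw [Prod.smul_mk, Prod.smul_mk, Prod.mk_add_mk, hs]
      simp
  -- translate invariance
  have hinv : ∀ η : L, n3 (fr K L : L →+* L) η = 1 →
      (Inv (Jop K L) (W.map (Gl η)) ↔
        fr K L (fr K L (η * b') / (η * b') + t3 (fr K L : L →+* L) (η * b') * (a / b')) =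
          fr K L (η * b') / (η * b') + t3 (fr K L : L →+* L) (η * b') * (a / b')) := by
    intro η hη
    have hη0 := n3_ne hη
    have hu0 : η * b' ≠ 0 := mul_ne_zero hη0 hb'0
    have hW' : finrank K ↥(W.map (Gl η)) = 2 := by rw [finrank_Gl hη0, hW]
    have hbm : (η * b', (0 : K)) ∈ W.map (Gl η) := ⟨(b', 0), hb'W, rfl⟩
    have step1 : Inv (Jop K L) (W.map (Gl η)) ↔ Jop K L (η * b', 0) ∈ W.map (Gl η) := by
      constructor
      · intro h; exact h _ hbm
      · intro h
        apply inv_of_mem (Jop_rel h3) (irr hq) hW' (w := (η * b', 0)) _ hbm h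
        intro h0
        exact hu0 (congrArg Prod.fst h0)
    have step2 : ∀ x : L, ∀ t : K, (x, t) ∈ W.map (Gl η) ↔ ∃ s : K, x = η * (t • a + s • b') := by
      intro x t
      constructor
      · rintro ⟨⟨y, r⟩, hy, h⟩
        rw [Gl_apply, Prod.mk.injEq] at h
        obtain ⟨h1, h2⟩ := h
        subst h2
        obtain ⟨s, hs⟩ := (hmem y r).1 hy
        exact ⟨s, by rw [← h1, hs]⟩
      · rintro ⟨s, hs⟩
        refine ⟨(t • a + s • b', t), (hmem _ _).2 ⟨s, rfl⟩, ?_⟩
        rw [Gl_apply, hs]
    rw [step1, Jop_apply, map_zero, add_zero, mul_zero, sub_zero, step2]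
    have htr : t3 (fr K L : L →+* L) (η * b') = algebraMap K L (Algebra.trace K L (η * b')) := by
      rw [trace_eq h3]; rfl
    constructor
    · rintro ⟨s, hs⟩
      have : fr K L (η * b') / (η * b') + t3 (fr K L : L →+* L) (η * b') * (a / b') =
          algebraMap K L s := by
        rw [htr, hs, neg_smul, Algebra.smul_def, Algebra.smul_def]
        field_simp
        ring
      rw [this]; exact fr_algebraMap s
    · intro h
      obtain ⟨s, hs⟩ := fixed h3 hq h
      refine ⟨s, ?_⟩
      rw [neg_smul, Algebra.smul_def, Algebra.smul_def, hs, ← htr]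
      field_simp
      ring
  -- existence and uniqueness
  obtain ⟨u, hu1, hu2⟩ := exists_u (φ := (fr K L : L →+* L)) (fr3 h3) (three_ne' hq)
    (cube_ex hq) (a / b')
  have hub : u / b' * b' = u := div_mul_cancel₀ u hb'0
  have hη1 : n3 (fr K L : L →+* L) (u / b') = 1 := by
    have := n3_mul (K := K) (u / b') b'
    rw [hub, hu1, hl, mul_one] at this
    exact this.symm
  refine ⟨u / b', ⟨hη1, ?_⟩, ?_⟩
  · rw [hinv _ hη1, hub]
    exact hu2
  · rintro η ⟨hη, hηinv⟩
    rw [hinv _ hη] at hηinv
    have h5 := u_unique (φ := (fr K L : L →+* L)) (fr3 h3) (three_ne' hq) (cube_inj hq)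
      (c := a / b') (u := η * b') (v := u) (by rw [n3_mul, hη, hl, mul_one]) hηinv hu1 hu2
    rw [← h5, mul_div_cancel_right₀ _ hb'0]

/-- lines at infinity -/
lemma key_inf (h3 : finrank K L = 3) (hq : Fintype.card K % 3 = 2)
    {W : Submodule K (L × K)} (hW : finrank K W = 2) (h0 : ∀ v ∈ W, v.2 = 0) :
    ∃! η : L, n3 (fr K L : L →+* L) η = 1 ∧ Inv (Jop K L) (W.map (Gl η)) := by
  have hfdL : FiniteDimensional K L := Module.finite_of_finrank_eq_succ h3
  obtain ⟨W0, hW0⟩ : ∃ W0 : Submodule K L, W0 = W.map (LinearMap.fst K L K) := ⟨_, rfl⟩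
  have hmemW : ∀ x : L, x ∈ W0 ↔ (x, (0 : K)) ∈ W := by
    intro x
    rw [hW0]
    constructor
    · rintro ⟨⟨y, r⟩, hy, rfl⟩
      have : r = 0 := h0 _ hy
      subst this
      exact hy
    · intro h; exact ⟨(x, 0), h, rfl⟩
  have hfin : finrank K W0 = 2 := by
    rw [← hW]
    have e : W ≃ₗ[K] W0 := LinearEquiv.ofBijective
      ({ toFun := fun v => ⟨v.1.1, (hmemW _).2 (by
            have := h0 v.1 v.2
            have h2 : (v.1.1, (0 : K)) = v.1 := Prod.ext rfl this.symm
            rw [h2]; exact v.2)⟩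
         map_add' := fun _ _ => rfl
         map_smul' := fun _ _ => rfl } : W →ₗ[K] W0) (by
        constructor
        · rintro ⟨⟨x, r⟩, hv⟩ ⟨⟨y, s⟩, hw⟩ h
          have h1 : x = y := congrArg Subtype.val h
          have h2 : r = 0 := h0 _ hv
          have h4 : s = 0 := h0 _ hw
          apply Subtype.ext
          simp only [h1, h2, h4]
        · rintro ⟨x, hx⟩
          exact ⟨⟨(x, 0), (hmemW x).1 hx⟩, rfl⟩)
    exact e.finrank_eq.symm
  -- invariance in terms of the trace
  have hT0 : ∀ U : Submodule K (L × K), finrank K U = 2 →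
      (∀ v ∈ U, v.2 = 0 ∧ Algebra.trace K L v.1 = 0) →
      ∀ x : L, Algebra.trace K L x = 0 → (x, (0 : K)) ∈ U := by
    intro U hU hUz x hx
    let f : (L × K) →ₗ[K] (K × K) := LinearMap.prodMap (Algebra.trace K L) LinearMap.id
    have hsurj : Function.Surjective f := by
      rintro ⟨s, t⟩
      refine ⟨(algebraMap K L (s / 3), t), ?_⟩
      change (Algebra.trace K L (algebraMap K L (s / 3)), t) = _
      rw [trace_alg h3]
      have := three_ne hq
      congr 1
      field_simp
    have hker : finrank K ↥(LinearMap.ker f) = 2 := by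
      have h1 := LinearMap.finrank_range_add_finrank_ker f
      rw [LinearMap.range_eq_top.2 hsurj, finrank_top, Module.finrank_prod, Module.finrank_prod,
        Module.finrank_self, h3] at h1
      omega
    have hle : U ≤ LinearMap.ker f := by
      intro v hv
      rw [LinearMap.mem_ker]
      obtain ⟨h1, h2⟩ := hUz v hv
      change (Algebra.trace K L v.1, v.2) = 0
      rw [h1, h2]; rfl
    have heq : U = LinearMap.ker f := Submodule.eq_of_le_of_finrank_le hle (by rw [hU, hker])
    rw [heq, LinearMap.mem_ker]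
    change (Algebra.trace K L x, (0 : K)) = 0
    rw [hx]; rfl
  have hinv : ∀ η : L, n3 (fr K L : L →+* L) η = 1 →
      (Inv (Jop K L) (W.map (Gl η)) ↔ ∀ x ∈ W0, Algebra.trace K L (η * x) = 0) := by
    intro η hη
    have hη0 := n3_ne hη
    constructor
    · intro h x hx
      have h1 : (η * x, (0 : K)) ∈ W.map (Gl η) := ⟨(x, 0), (hmemW x).1 hx, rfl⟩
      obtain ⟨⟨y, r⟩, hy, h2⟩ := h _ h1
      have hr : r = 0 := h0 _ hy
      rw [Gl_apply, Jop_apply, Prod.mk.injEq, hr, mul_zero, sub_zero] at h2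
      exact neg_eq_zero.1 h2.2.symm
    · intro h
      rintro v ⟨⟨y, r⟩, hy, rfl⟩
      have hr : r = 0 := h0 _ hy
      subst hr
      have hty := h y ((hmemW y).2 hy)
      rw [Gl_apply, Jop_apply, hty, map_zero, add_zero, mul_zero, sub_zero, neg_zero]
      apply hT0 (W.map (Gl η)) (by rw [finrank_Gl hη0, hW])
      · rintro v ⟨⟨z, s⟩, hz, rfl⟩
        have hs : s = 0 := h0 _ hz
        subst hs
        exact ⟨rfl, h z ((hmemW z).2 hz)⟩
      · rw [trace_fr h3]; exact hty
  -- the functional
  have hlt : W0 < ⊤ := by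
    rw [lt_top_iff_ne_top]
    intro h
    rw [h, finrank_top, h3] at hfin
    omega
  obtain ⟨f, hf0, hf⟩ := Submodule.exists_le_ker_of_lt_top _ hlt
  have hnd := traceForm_nondegenerate K L
  obtain ⟨M, hM⟩ : ∃ M : L, ∀ x, Algebra.trace K L (M * x) = f x := by
    refine ⟨((Algebra.traceForm K L).toDual hnd).symm f, fun x => ?_⟩
    have := LinearMap.BilinForm.apply_toDual_symm_apply (hB := hnd) f x
    rw [Algebra.traceForm_apply] at this
    exact this
  have hM0 : M ≠ 0 := by
    rintro rfl
    apply hf0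
    ext x
    rw [← hM, zero_mul, map_zero]; rfl
  obtain ⟨l, hl0, hl⟩ := exists_scale h3 hq hM0
  refine ⟨l • M, ⟨hl, ?_⟩, ?_⟩
  · rw [hinv _ hl]
    intro x hx
    rw [smul_mul_assoc, map_smul, hM, LinearMap.mem_ker.1 (hf hx), smul_zero]
  · rintro η ⟨hη, hηinv⟩
    rw [hinv _ hη] at hηinv
    -- compare the two functionals
    obtain ⟨x0, hx0⟩ : ∃ x0 : L, x0 ∉ W0 := by
      by_contra hcon
      push Not at hcon
      exact hlt.ne (Submodule.eq_top_iff'.2 hcon)
    have hfx0 : f x0 ≠ 0 := by
      intro h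
      have hker : LinearMap.ker f = ⊤ := by
        have h1 := LinearMap.finrank_range_add_finrank_ker f
        by_contra hne
        have h2 : finrank K ↥(LinearMap.ker f) < finrank K L := Submodule.finrank_lt hne
        have h4 : W0 = LinearMap.ker f :=
          Submodule.eq_of_le_of_finrank_le hf (by omega)
        apply hx0
        rw [h4]; exact LinearMap.mem_ker.2 h
      exact hf0 (LinearMap.ker_eq_top.1 hker)
    have hkerf : W0 = LinearMap.ker f := by
      apply Submodule.eq_of_le_of_finrank_le hf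
      have h2 : finrank K ↥(LinearMap.ker f) < finrank K L := by
        apply Submodule.finrank_lt
        intro h
        exact hf0 (LinearMap.ker_eq_top.1 h)
      omega
    set c : K := Algebra.trace K L (η * x0) / f x0 with hc
    have hall : ∀ x : L, Algebra.trace K L (η * x) = c * f x := by
      intro x
      have h1 : x - (f x / f x0) • x0 ∈ W0 := by
        rw [hkerf, LinearMap.mem_ker, map_sub, map_smul, smul_eq_mul, div_mul_cancel₀ _ hfx0,
          sub_self]
      have h2 := hηinv _ h1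
      rw [mul_sub, map_sub, mul_smul_comm, map_smul, smul_eq_mul, sub_eq_zero] at h2
      rw [h2, hc]
      field_simp
    have hηM : η = c • M := by
      have h4 : ∀ x : L, Algebra.trace K L ((η - c • M) * x) = 0 := by
        intro x
        rw [sub_mul, map_sub, hall, smul_mul_assoc, map_smul, hM, smul_eq_mul, sub_self]
      have h5 : η - c • M = 0 := by
        apply hnd.1
        intro x
        rw [Algebra.traceForm_apply]
        exact h4 x
      exact sub_eq_zero.1 h5
    -- norms
    have hlc : (algebraMap K L c) ^ 3 = (algebraMap K L l) ^ 3 := by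
      have n1 : ∀ r : K, n3 (fr K L : L →+* L) (r • M) =
          (algebraMap K L r) ^ 3 * n3 (fr K L : L →+* L) M := by
        intro r
        rw [Algebra.smul_def, n3_mul]
        congr 1
        unfold n3
        change algebraMap K L r * fr K L (algebraMap K L r) *
          fr K L (fr K L (algebraMap K L r)) = _
        rw [fr_algebraMap, fr_algebraMap]; ring
      have hMn : n3 (fr K L : L →+* L) M ≠ 0 := by rw [n3_pow]; exact pow_ne_zero _ hM0
      apply mul_right_cancel₀ hMn
      rw [← n1, ← n1, ← hηM, hη, hl]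
    have hcl := cube_inj hq _ _ (fr_algebraMap c) (fr_algebraMap l) hlc
    rw [hηM, (algebraMap K L).injective hcl]

end Space

end Pool.Agent.TH353.CP
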