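import Mathlib
import Pool.Agent.TH353.CP.Ex2

/-!
Existence of cyclic packings of `PG(3,q)` for `q ≡ 2 mod 3`, and the final characterisation.
-/

set_option autoImplicit false
set_option linter.unusedSectionVars false

namespace Pool.Agent.TH353.CP

open scoped LinearAlgebra.Projectivization
open Module

section

variable {K L : Type*} [Field K] [Field L] [Algebra K L] [Fintype K] [Finite L]

lemma key_all (h3 : finrank K L = 3) (hq : Fintype.card K % 3 = 2)
    {W : Submodule K (L × K)} (hW : finrank K W = 2) :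
    ∃! η : L, n3 (fr K L : L →+* L) η = 1 ∧ Inv (Jop K L) (W.map (Gl η)) := by
  by_cases h0 : ∀ v ∈ W, v.2 = 0
  · exact key_inf h3 hq hW h0
  · push Not at h0
    obtain ⟨⟨a', t'⟩, hv, ht⟩ := h0
    simp only at ht
    have hfd : FiniteDimensional K W := Module.finite_of_finrank_eq_succ hW
    have ha : (t'⁻¹ • a', (1 : K)) ∈ W := by
      have : (t'⁻¹ • a', (1 : K)) = t'⁻¹ • (a', t') := by
        rw [Prod.smul_mk, smul_eq_mul, inv_mul_cancel₀ ht]
      rw [this]; exact W.smul_mem _ hv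
    set a := t'⁻¹ • a' with hadef
    obtain ⟨⟨c, s⟩, hcW, hc⟩ : ∃ w ∈ W, w ∉ Submodule.span K {(a, (1 : K))} := by
      by_contra hcon
      push Not at hcon
      have hle : W ≤ Submodule.span K {(a, (1 : K))} := hcon
      have h1 := Submodule.finrank_mono (R := K) hle
      have h2 := finrank_span_le_card (R := K) ({(a, (1 : K))} : Set (L × K))
      rw [hW] at h1
      simp at h2
      omega
    have hb : (c - s • a, (0 : K)) ∈ W := by
      have : (c - s • a, (0 : K)) = (c, s) - s • (a, (1 : K)) := by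
        rw [Prod.smul_mk, Prod.mk_sub_mk]; simp
      rw [this]; exact W.sub_mem hcW (W.smul_mem _ ha)
    refine key_affine h3 hq hW ha hb ?_
    intro h
    apply hc
    rw [Submodule.mem_span_singleton]
    refine ⟨s, ?_⟩
    rw [Prod.smul_mk, ← sub_eq_zero.1 h]; simp

/-- primitive root of unity of order `q² + q + 1` -/
lemma exists_zeta (h3 : finrank K L = 3) :
    ∃ ζ : L, IsPrimitiveRoot ζ (Nat.card K ^ 2 + Nat.card K + 1) := by
  have := Fintype.ofFinite L
  obtain ⟨g, hg⟩ := IsCyclic.exists_generator (α := Lˣ)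
  have hord : orderOf g = Nat.card Lˣ := orderOf_eq_card_of_forall_mem_zpowers hg
  have hcardL : Nat.card L = Nat.card K ^ 3 := by
    rw [Module.natCard_eq_pow_finrank (K := K) (V := L), h3]
  have hcard : Nat.card Lˣ = (Nat.card K - 1) * (Nat.card K ^ 2 + Nat.card K + 1) := by
    rw [Nat.card_units, hcardL]
    have h1 : 1 ≤ Nat.card K := Nat.card_pos
    obtain ⟨m, hm⟩ := Nat.exists_eq_add_of_le h1
    rw [hm]
    simp only [add_tsub_cancel_left]
    have : (1 + m) ^ 3 = m * ((1 + m) ^ 2 + (1 + m) + 1) + 1 := by ring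
    rw [this, Nat.add_sub_cancel]
  have hprim : IsPrimitiveRoot (g : L) (Nat.card Lˣ) := by
    rw [← hord]
    exact IsPrimitiveRoot.coe_units_iff.2 (IsPrimitiveRoot.orderOf g)
  exact ⟨_, IsPrimitiveRoot.pow Nat.card_pos hprim hcard⟩

/-- the linear automorphism -/
noncomputable def Ge (ζ : L) (hζ : ζ ≠ 0) : (L × K) ≃ₗ[K] (L × K) :=
  LinearEquiv.ofLinearMap (Gl ζ) (Gl ζ⁻¹)
    (by
      apply LinearMap.ext
      rintro ⟨x, t⟩
      change (ζ * (ζ⁻¹ * x), t) = (x, t)
      rw [← mul_assoc, mul_inv_cancel₀ hζ, one_mul])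
    (by
      apply LinearMap.ext
      rintro ⟨x, t⟩
      change (ζ⁻¹ * (ζ * x), t) = (x, t)
      rw [← mul_assoc, inv_mul_cancel₀ hζ, one_mul])

theorem exists_packing_aux {V : Type*} [AddCommGroup V] [Module K V] (h3 : finrank K L = 3)
    (hq : Fintype.card K % 3 = 2) (hV : finrank K V = 4) : ∃ P, IsCyclicPacking K V P := by
  have hfdL : FiniteDimensional K L := Module.finite_of_finrank_eq_succ h3
  have hfdV : FiniteDimensional K V := Module.finite_of_finrank_eq_succ hV
  have e : V ≃ₗ[K] (L × K) := LinearEquiv.ofFinrankEq _ _ (by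
    rw [hV, Module.finrank_prod, h3, Module.finrank_self])
  obtain ⟨ζ, hζ⟩ := exists_zeta (K := K) h3
  have hNpos : 0 < Nat.card K ^ 2 + Nat.card K + 1 := by omega
  have hζ0 : ζ ≠ 0 := hζ.ne_zero hNpos.ne'
  let g : V ≃ₗ[K] V := e.trans ((Ge ζ hζ0).trans e.symm)
  let J : V →ₗ[K] V := e.symm.toLinearMap ∘ₗ Jop K L ∘ₗ e.toLinearMap
  have hgn : ∀ n : ℕ, ∀ v : V, (g ^ n : V ≃ₗ[K] V) v = e.symm (Gl (ζ ^ n) (e v)) := by
    intro n
    induction n with
    | zero =>
      intro v
      rw [pow_zero, pow_zero]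
      change v = e.symm (Gl 1 (e v))
      have : Gl (K := K) (1 : L) (e v) = e v := by
        change ((1 : L) * (e v).1, (e v).2) = e v
        rw [one_mul]
      rw [this, e.symm_apply_apply]
    | succ n ih =>
      intro v
      rw [pow_succ]
      change (g ^ n : V ≃ₗ[K] V) (g v) = _
      rw [ih]
      change e.symm (Gl (ζ ^ n) (e (e.symm (Gl ζ (e v))))) = _
      rw [e.apply_symm_apply]
      congr 1
      change (ζ ^ n * (ζ * (e v).1), (e v).2) = (ζ ^ (n + 1) * (e v).1, (e v).2)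
      rw [pow_succ, mul_assoc]
  have hinv : ∀ n : ℕ, ∀ W : Submodule K V, Inv J (gW g n W) ↔
      Inv (Jop K L) ((W.map e.toLinearMap).map (Gl (ζ ^ n))) := by
    intro n W
    constructor
    · rintro h v ⟨y, ⟨w, hw, rfl⟩, rfl⟩
      have h1 : (g ^ n : V ≃ₗ[K] V) w ∈ gW g n W := apply_mem_gW.2 hw
      have h2 := h _ h1
      obtain ⟨w', hw', h4⟩ := mem_gW.1 h2
      rw [hgn, hgn] at h4
      have h5 : Gl (ζ ^ n) (e w') = Jop K L (Gl (ζ ^ n) (e w)) := by
        have h6 := congrArg e h4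
        rw [e.apply_symm_apply] at h6
        rw [h6]
        change e (e.symm (Jop K L (e (e.symm (Gl (ζ ^ n) (e w)))))) = _
        rw [e.apply_symm_apply, e.apply_symm_apply]
      change Jop K L (Gl (ζ ^ n) (e w)) ∈ _
      rw [← h5]
      exact ⟨e w', ⟨w', hw', rfl⟩, rfl⟩
    · intro h v hv
      obtain ⟨w, hw, rfl⟩ := mem_gW.1 hv
      have h1 : Gl (ζ ^ n) (e w) ∈ (W.map e.toLinearMap).map (Gl (ζ ^ n)) :=
        ⟨e w, ⟨w, hw, rfl⟩, rfl⟩
      obtain ⟨y, ⟨w', hw', rfl⟩, h4⟩ := h _ h1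
      rw [mem_gW]
      refine ⟨w', hw', ?_⟩
      rw [hgn, hgn]
      change e.symm (Gl (ζ ^ n) (e w')) = e.symm (Jop K L (e (e.symm (Gl (ζ ^ n) (e w)))))
      rw [e.apply_symm_apply]
      congr 1
  refine packing_of_data (g := g) (J := J) hV ?_ (irr hq) ?_ ?_
  · intro v
    have h1 := Jop_rel h3 (e v)
    have h2 := congrArg e.symm h1
    rw [map_add, map_add, map_zero, e.symm_apply_apply] at h2
    change e.symm (Jop K L (e (e.symm (Jop K L (e v))))) + e.symm (Jop K L (e v)) + v = 0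
    rw [e.apply_symm_apply]
    exact h2
  · apply LinearEquiv.ext
    intro v
    rw [hgn, hζ.pow_eq_one]
    have : Gl (K := K) (1 : L) (e v) = e v := by
      change ((1 : L) * (e v).1, (e v).2) = e v
      rw [one_mul]
    rw [this, e.symm_apply_apply]; rfl
  · intro W hW
    have hW' : finrank K ↥(W.map e.toLinearMap) = 2 := by
      rw [← hW]; exact LinearEquiv.finrank_map_eq e W
    obtain ⟨η, ⟨hη1, hη2⟩, hηu⟩ := key_all h3 hq hW'
    have hpow : ∀ x : L, n3 (fr K L : L →+* L) x = 1 ↔ x ^ (Nat.card K ^ 2 + Nat.card K + 1) = 1 := by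
      intro x
      rw [n3_pow, Nat.card_eq_fintype_card]
    have : NeZero (Nat.card K ^ 2 + Nat.card K + 1) := ⟨hNpos.ne'⟩
    obtain ⟨n, hn, hnη⟩ := hζ.eq_pow_of_pow_eq_one ((hpow η).1 hη1)
    refine ⟨n, ⟨hn, ?_⟩, ?_⟩
    · rw [hinv, hnη]; exact hη2
    · rintro m ⟨hm, hminv⟩
      rw [hinv] at hminv
      have h1 : n3 (fr K L : L →+* L) (ζ ^ m) = 1 := by
        rw [hpow, ← pow_mul, mul_comm, pow_mul, hζ.pow_eq_one, one_pow]
      have h2 := hηu _ ⟨h1, hminv⟩
      rw [← hnη] at h2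
      exact hζ.pow_inj hm hn h2

end

theorem exists_packing {K V : Type*} [Field K] [Finite K] [AddCommGroup V] [Module K V]
    (hq : Nat.card K % 3 = 2) (hV : finrank K V = 4) : ∃ P, IsCyclicPacking K V P := by
  have := Fintype.ofFinite K
  obtain ⟨p, hp⟩ := CharP.exists K
  obtain ⟨n, hpp, hn⟩ := FiniteField.card K p
  have : Fact p.Prime := ⟨hpp⟩
  exact exists_packing_aux (L := FiniteField.Extension K p 3)
    (FiniteField.finrank_extension K p 3) (by rw [← Nat.card_eq_fintype_card]; exact hq) hV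

/-- `PG(3,q)` has a cyclic packing if and only if `q ≡ 2 mod 3`. -/
theorem cyclic_packing_iff (K V : Type*) [Field K] [Finite K] [AddCommGroup V] [Module K V]
    (hV : finrank K V = 4) : (∃ P, IsCyclicPacking K V P) ↔ Nat.card K % 3 = 2 :=
  ⟨fun ⟨_, hP⟩ => mod_three_of_packing hV hP, fun hq => exists_packing hq hV⟩

end Pool.Agent.TH353.CP
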